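import Mathlib

/-!
# Hopf hypersurfaces in `ℂH^n` with three principal curvatures and `a² + 4c = 0`

The problem asks whether a Hopf hypersurface of `ℂH^n` (`n ≥ 3`) with `a² + 4c = 0` and exactly
three distinct principal curvatures at each point must be an open part of a member of Montiel's
list. We disprove this, with `n = 3`: the envelope in `ℂH³` of the one-parameter family of
horospheres `|⟨z, Z(s)⟩| = 1`, where `Z(s)` is a null curve (a real parabola in the isotropic cone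
of `ℂ^{3,1}`), is a complete embedded Hopf hypersurface diffeomorphic to `ℝ⁵`. For `c = -1` its
principal curvatures are `2` (the Hopf one), `1` (multiplicity 3) and the non-constant function
`1 - 2 / (1 + 3β² + u² + v²)`, of multiplicity 1.
-/

open Set Topology
open scoped ContDiff ComplexConjugate

namespace Pool.Agent.Results.MP_bb4e29_gt.HopfExample

/-! ### Definitions used in the statement -/

/-- `ℂ^n` with its standard Hermitian norm. Complex hyperbolic space `ℂH^n` is its open unit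
ball. -/
abbrev Cn (n : ℕ) : Type := EuclideanSpace ℂ (Fin n)

/-- `ℝ^m` with its Euclidean norm. -/
abbrev Rn (m : ℕ) : Type := EuclideanSpace ℝ (Fin m)

/-- The standard Hermitian product `⟨u, v⟩ = ∑ ūᵢ vᵢ` of `ℂ^n`. -/
noncomputable def dot {n : ℕ} (u v : Cn n) : ℂ := ∑ i, conj (u i) * v i

/-- The Bergman metric of the unit ball of `ℂ^n`, scaled to constant holomorphic sectional
curvature `4c < 0`: at the point `ζ`,
`g(u, v) = (-1/c) ((1 - |ζ|²) Re⟨u, v⟩ + Re(⟨u, ζ⟩ ⟨ζ, v⟩)) / (1 - |ζ|²)²`.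
(For `n = 1` and `c = -1` it is `|dζ|² / (1 - |ζ|²)²`, of curvature `-4`.) -/
noncomputable def bergman {n : ℕ} (c : ℝ) (ζ u v : Cn n) : ℝ :=
  (-1 / c) * (((1 - ‖ζ‖ ^ 2) * (dot u v).re + (dot u ζ * dot ζ v).re) / (1 - ‖ζ‖ ^ 2) ^ 2)

/-- The derivative at `ζ`, in the direction `a`, of the coefficient `g(u, v)` of the metric
(`u`, `v` constant vector fields). -/
noncomputable def metricDeriv {n : ℕ} (c : ℝ) (ζ a u v : Cn n) : ℝ :=
  fderiv ℝ (fun ζ' => bergman c ζ' u v) ζ a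

/-- `covDeriv c Ψ ξ p v w` is `g(∇_v ξ, w)`, where `∇` is the Levi-Civita connection of the Bergman
metric (given by the Koszul formula), `ξ` is a vector field along the map `Ψ`, and `w` is any
vector at the point `Ψ p`. -/
noncomputable def covDeriv {m n : ℕ} (c : ℝ) (Ψ ξ : Rn m → Cn n) (p v : Rn m) (w : Cn n) : ℝ :=
  bergman c (Ψ p) (fderiv ℝ ξ p v) w +
    (metricDeriv c (Ψ p) (fderiv ℝ Ψ p v) (ξ p) w + metricDeriv c (Ψ p) (ξ p) (fderiv ℝ Ψ p v) w -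
      metricDeriv c (Ψ p) w (fderiv ℝ Ψ p v) (ξ p)) / 2

/-- `Ψ : U → ℂH^n` is a connected smooth embedded real hypersurface (of real dimension
`m = 2n - 1`), with smooth unit normal field `ξ`. -/
structure IsHypersurface {m n : ℕ} (c : ℝ) (U : Set (Rn m)) (Ψ ξ : Rn m → Cn n) : Prop where
  dim : m + 1 = 2 * n
  isOpen : IsOpen U
  connected : IsConnected U
  smooth : ContDiffOn ℝ ∞ Ψ U
  smooth_normal : ContDiffOn ℝ ∞ ξ U
  mem_ball : ∀ p ∈ U, ‖Ψ p‖ < 1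
  immersion : ∀ p ∈ U, Function.Injective (fderiv ℝ Ψ p)
  embedding : Topology.IsEmbedding (fun p : U => Ψ p)
  unit_normal : ∀ p ∈ U, bergman c (Ψ p) (ξ p) (ξ p) = 1
  normal : ∀ p ∈ U, ∀ v, bergman c (Ψ p) (ξ p) (fderiv ℝ Ψ p v) = 0

/-- `X = dΨ(v)` is a principal vector, with principal curvature `μ`, of the hypersurface `Ψ` at
`p`: `X ≠ 0` and `A X = μ X`, where `A X = -∇_X ξ` is the shape operator. -/
def IsPrincipal {m n : ℕ} (c : ℝ) (Ψ ξ : Rn m → Cn n) (p v : Rn m) (μ : ℝ) : Prop :=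
  fderiv ℝ Ψ p v ≠ 0 ∧ ∀ w, -covDeriv c Ψ ξ p v w = μ * bergman c (Ψ p) (fderiv ℝ Ψ p v) w

/-- The hypersurface is Hopf with Hopf principal curvature `a`: at every point the structure vector
`W = -Jξ` (`J` is multiplication by `i`) is a principal vector and `A W = a W`. -/
def IsHopf {m n : ℕ} (c : ℝ) (U : Set (Rn m)) (Ψ ξ : Rn m → Cn n) (a : ℝ) : Prop :=
  ∀ p ∈ U, ∃ v, fderiv ℝ Ψ p v = -(Complex.I • ξ p) ∧ IsPrincipal c Ψ ξ p v a

/-- The set of the principal curvatures of the hypersurface at `p`. -/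
def principalCurvatures {m n : ℕ} (c : ℝ) (Ψ ξ : Rn m → Cn n) (p : Rn m) : Set ℝ :=
  {μ | ∃ v, IsPrincipal c Ψ ξ p v μ}

/-- The standard Hermitian form of signature `(n,1)` on `ℂ^(n+1)`,
`-z₀ w̄₀ + z₁ w̄₁ + ... + zₙ w̄ₙ`. -/
noncomputable def herm {n : ℕ} (z w : Fin (n + 1) → ℂ) : ℂ :=
  -(z 0 * conj (w 0)) + ∑ i : Fin n, z i.succ * conj (w i.succ)

/-- The homogeneous coordinates `(1, ζ)` of a point `ζ` of the ball. -/
def lift {n : ℕ} (ζ : Cn n) : Fin (n + 1) → ℂ := Fin.cons 1 fun i => ζ i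

/-- The members of Montiel's list, in the unit ball. Here `g` runs through `U(n,1)` (it moves a
standard model to all its images under holomorphic isometries; every model is also invariant under
complex conjugation), and with `z = g (1, ζ)`, so that `-herm z z = 1 - |ζ|²`, the members are:
(A0) the horospheres `|z₀ - zₙ|² = t (1 - |ζ|²)`, `t > 0`;
(A1, A2) the geodesic spheres (`k = 0`) and the tubes around a totally geodesic `ℂH^k`
(`1 ≤ k ≤ n - 1`) of radius `r` (for `c = -1`), `|z_{k+1}|² + ... + |zₙ|² = t (1 - |ζ|²)`,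
`t = sinh² r > 0`;
(B) the tubes of radius `r` around a totally real totally geodesic `ℝH^n`,
`|z₀² - z₁² - ... - zₙ²| = t (1 - |ζ|²)`, `t = cosh (2 r) > 1`. -/
def IsMontiel {n : ℕ} (S : Set (Cn n)) : Prop :=
  ∃ g : (Fin (n + 1) → ℂ) ≃ₗ[ℂ] (Fin (n + 1) → ℂ), (∀ z w, herm (g z) (g w) = herm z w) ∧
    ((∃ t > 0, S = {ζ | ‖ζ‖ < 1 ∧
        ‖g (lift ζ) 0 - g (lift ζ) (Fin.last n)‖ ^ 2 = t * (1 - ‖ζ‖ ^ 2)}) ∨
      (∃ k < n, ∃ t > 0, S = {ζ | ‖ζ‖ < 1 ∧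
        ∑ i : Fin (n + 1) with k < i.val, ‖g (lift ζ) i‖ ^ 2 = t * (1 - ‖ζ‖ ^ 2)}) ∨
      (∃ t > 1, S = {ζ | ‖ζ‖ < 1 ∧
        ‖(g (lift ζ) 0) ^ 2 - ∑ i : Fin n, (g (lift ζ) i.succ) ^ 2‖ = t * (1 - ‖ζ‖ ^ 2)}))

/-! ### The Bergman metric and its connection -/

lemma dot_eq {n : ℕ} (u v : Cn n) : dot u v = inner ℂ u v := by
  unfold dot
  rw [PiLp.inner_apply]
  refine Finset.sum_congr rfl fun i _ => ?_
  rw [RCLike.inner_apply]
  ring

lemma bergman_eq {n : ℕ} (c : ℝ) (ζ u v : Cn n) : bergman c ζ u v =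
    (-1 / c) * (((1 - ‖ζ‖ ^ 2) * (inner ℂ u v).re + (inner ℂ u ζ * inner ℂ ζ v).re) /
    (1 - ‖ζ‖ ^ 2) ^ 2) := by
  unfold bergman
  rw [dot_eq, dot_eq, dot_eq]

lemma rho_pos {n : ℕ} {ζ : Cn n} (h : ‖ζ‖ < 1) : 0 < 1 - ‖ζ‖ ^ 2 := by
  nlinarith [norm_nonneg ζ]

lemma differentiableAt_bergman {n : ℕ} (c : ℝ) {ζ : Cn n} (u v : Cn n) (h : ‖ζ‖ < 1) :
    DifferentiableAt ℝ (fun ζ' => bergman c ζ' u v) ζ := by
  simp only [bergman_eq]
  have h1 : (1 - ‖ζ‖ ^ 2) ^ 2 ≠ 0 := by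
    have := rho_pos h
    positivity
  have d1 : DifferentiableAt ℝ (fun ζ' : Cn n => ‖ζ'‖ ^ 2) ζ :=
    ((contDiff_norm_sq ℂ (E := Cn n) (n := 1)).differentiable (by simp)).differentiableAt
  have d2 : DifferentiableAt ℝ (fun ζ' : Cn n => (inner ℂ u ζ' : ℂ)) ζ :=
    DifferentiableAt.inner ℂ (differentiableAt_const _) differentiableAt_id
  have d3 : DifferentiableAt ℝ (fun ζ' : Cn n => (inner ℂ ζ' v : ℂ)) ζ :=
    DifferentiableAt.inner ℂ differentiableAt_id (differentiableAt_const _)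
  have d4 : DifferentiableAt ℝ (fun ζ' : Cn n => (inner ℂ u ζ' * inner ℂ ζ' v : ℂ).re) ζ :=
    (Complex.reCLM.differentiableAt).comp ζ (d2.mul d3)
  have d5 : DifferentiableAt ℝ (fun ζ' : Cn n => 1 - ‖ζ'‖ ^ 2) ζ := d1.const_sub 1
  have d6 : DifferentiableAt ℝ (fun ζ' : Cn n => (1 - ‖ζ'‖ ^ 2) ^ 2) ζ := d5.pow 2
  have d7 := ((d5.mul_const (inner ℂ u v).re).add d4).mul (d6.inv h1)
  exact d7.const_mul _

/-- derivative of the metric -/
lemma metricDeriv_eq {n : ℕ} (c : ℝ) {ζ : Cn n} (a u v : Cn n) (h : ‖ζ‖ < 1) :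
    metricDeriv c ζ a u v = (-1 / c) * (
      (2 * (inner ℂ ζ a : ℂ).re * (inner ℂ u v).re +
        (inner ℂ u a * inner ℂ ζ v + inner ℂ u ζ * inner ℂ a v : ℂ).re) / (1 - ‖ζ‖ ^ 2) ^ 2 +
      4 * (inner ℂ ζ a : ℂ).re * (inner ℂ u ζ * inner ℂ ζ v : ℂ).re / (1 - ‖ζ‖ ^ 2) ^ 3) := by
  have hρ := rho_pos h
  have h1 : HasDerivAt (fun t : ℝ => ζ + t • a) a 0 := by
    simpa using ((hasDerivAt_id (0:ℝ)).smul_const a).const_add ζ
  have h2 : HasFDerivAt (fun ζ' => bergman c ζ' u v) (fderiv ℝ (fun ζ' => bergman c ζ' u v) ζ)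
      (ζ + (0:ℝ) • a) := by
    simpa using (differentiableAt_bergman c u v h).hasFDerivAt
  have h3 := h2.comp_hasDerivAt (0:ℝ) h1
  have h4 : ((fun ζ' => bergman c ζ' u v) ∘ fun t : ℝ => ζ + t • a) = fun t : ℝ =>
      (-1 / c) * (((1 - (‖ζ‖ ^ 2 + 2 * (inner ℂ ζ a : ℂ).re * t + t ^ 2 * ‖a‖ ^ 2)) *
        (inner ℂ u v).re + ((inner ℂ u ζ * inner ℂ ζ v : ℂ).re +
        (inner ℂ u a * inner ℂ ζ v + inner ℂ u ζ * inner ℂ a v : ℂ).re * t +
        (inner ℂ u a * inner ℂ a v : ℂ).re * t ^ 2)) /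
    (1 - (‖ζ‖ ^ 2 + 2 * (inner ℂ ζ a : ℂ).re * t + t ^ 2 * ‖a‖ ^ 2)) ^ 2) := by
    funext t
    have hs : t • a = (t : ℂ) • a := (Complex.coe_smul t a).symm
    have e1 : ‖ζ + t • a‖ ^ 2 = ‖ζ‖ ^ 2 + 2 * (inner ℂ ζ a : ℂ).re * t + t ^ 2 * ‖a‖ ^ 2 := by
      rw [norm_add_sq (𝕜 := ℂ), hs, inner_smul_right, norm_smul]
      simp [mul_pow]
      ring
    have e2 : (inner ℂ u (ζ + t • a) * inner ℂ (ζ + t • a) v : ℂ).re =
        (inner ℂ u ζ * inner ℂ ζ v : ℂ).re +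
        (inner ℂ u a * inner ℂ ζ v + inner ℂ u ζ * inner ℂ a v : ℂ).re * t +
        (inner ℂ u a * inner ℂ a v : ℂ).re * t ^ 2 := by
      rw [hs, inner_add_right, inner_add_left, inner_smul_right, inner_smul_left]
      simp
      ring
    simp only [Function.comp, bergman_eq]
    rw [e1, e2]
  rw [h4] at h3
  set A := (inner ℂ u v : ℂ).re
  set α := (inner ℂ ζ a : ℂ).re
  set B0 := (inner ℂ u ζ * inner ℂ ζ v : ℂ).re
  set B1 := (inner ℂ u a * inner ℂ ζ v + inner ℂ u ζ * inner ℂ a v : ℂ).re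
  set B2 := (inner ℂ u a * inner ℂ a v : ℂ).re
  have q1 : HasDerivAt (fun t : ℝ => 1 - (‖ζ‖ ^ 2 + 2 * α * t + t ^ 2 * ‖a‖ ^ 2)) (-(2 * α)) 0 := by
    have := (((((hasDerivAt_id (0:ℝ)).const_mul (2 * α)).const_add (‖ζ‖ ^ 2)).add
      ((hasDerivAt_pow 2 (0:ℝ)).mul_const (‖a‖ ^ 2))).const_sub 1)
    exact this.congr_deriv (by norm_num)
  have q2 : HasDerivAt (fun t : ℝ => B0 + B1 * t + B2 * t ^ 2) B1 0 := by
    have := (((hasDerivAt_id (0:ℝ)).const_mul B1).const_add B0).add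
      ((hasDerivAt_pow 2 (0:ℝ)).const_mul B2)
    exact this.congr_deriv (by norm_num)
  have hne : (fun t : ℝ => (1 - (‖ζ‖ ^ 2 + 2 * α * t + t ^ 2 * ‖a‖ ^ 2)) ^ 2) 0 ≠ 0 := by
    simp only [mul_zero, add_zero, ne_eq, OfNat.ofNat_ne_zero, not_false_eq_true, zero_pow,
      zero_mul]
    positivity
  have q3 := ((((q1.mul_const A).add q2).div (q1.pow 2) hne).const_mul (-1 / c))
  have q4 := h3.unique q3
  unfold metricDeriv
  rw [q4]
  congr 1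
  simp
  field_simp
  ring

/-- Christoffel symbols of the Bergman metric -/
noncomputable def Gam {n : ℕ} (ζ u x : Cn n) : Cn n :=
  ((1 / (1 - ‖ζ‖ ^ 2) : ℝ) : ℂ) • ((inner ℂ ζ u : ℂ) • x + (inner ℂ ζ x : ℂ) • u)

lemma koszul {n : ℕ} (c : ℝ) {ζ : Cn n} (u x w : Cn n) (h : ‖ζ‖ < 1) :
    (metricDeriv c ζ u x w + metricDeriv c ζ x u w - metricDeriv c ζ w u x) / 2 =
      bergman c ζ (Gam ζ u x) w := by
  have hρ := rho_pos h
  rw [metricDeriv_eq c _ _ _ h, metricDeriv_eq c _ _ _ h, metricDeriv_eq c _ _ _ h]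
  simp only [bergman_eq]
  unfold Gam
  rw [inner_smul_left, inner_add_left, inner_smul_left, inner_smul_left, inner_smul_left,
    inner_add_left, inner_smul_left, inner_smul_left]
  rw [← inner_conj_symm (𝕜 := ℂ) x ζ, ← inner_conj_symm (𝕜 := ℂ) u ζ,
    ← inner_conj_symm (𝕜 := ℂ) w x, ← inner_conj_symm (𝕜 := ℂ) u x]
  generalize (inner ℂ ζ x : ℂ) = X
  generalize (inner ℂ ζ u : ℂ) = U
  generalize (inner ℂ ζ w : ℂ) = W
  generalize (inner ℂ x w : ℂ) = a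
  generalize (inner ℂ u w : ℂ) = b
  generalize (inner ℂ x u : ℂ) = d
  simp only [Complex.conj_ofReal, Complex.mul_re, Complex.add_re, Complex.ofReal_re,
    Complex.ofReal_im, Complex.conj_re, Complex.conj_im, Complex.mul_im, Complex.add_im]
  generalize 1 - ‖ζ‖ ^ 2 = ρ at hρ
  field_simp
  ring

lemma bergman_add_left {n : ℕ} (c : ℝ) (ζ u u' v : Cn n) :
    bergman c ζ (u + u') v = bergman c ζ u v + bergman c ζ u' v := by
  simp only [bergman_eq]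
  rw [inner_add_left, inner_add_left, add_mul, Complex.add_re, Complex.add_re]
  ring

lemma bergman_smul_left {n : ℕ} (c : ℝ) (ζ u v : Cn n) (r : ℝ) :
    bergman c ζ ((r : ℂ) • u) v = r * bergman c ζ u v := by
  simp only [bergman_eq]
  rw [inner_smul_left, inner_smul_left]
  simp only [Complex.conj_ofReal, Complex.mul_re, Complex.ofReal_re, Complex.ofReal_im,
    Complex.mul_im]
  ring

/-- key computation in homogeneous coordinates -/
lemma nabla_homog {n : ℕ} {z0 Z0 dz0 dZ0 : ℂ} {z Z dz dZ : Cn n} (hz0 : z0 ≠ 0)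
    (hneg : ‖z‖ ^ 2 = ‖z0‖ ^ 2 - 1) (hZ : -(Z0 * conj z0) + inner ℂ z Z = 1)
    {Ψ dΨ ξ dξ : Cn n} (hΨ : Ψ = z0⁻¹ • z) (hdΨ : dΨ = z0⁻¹ • (dz - dz0 • Ψ))
    (hξ : ξ = z0⁻¹ • (Z - Z0 • Ψ))
    (hdξ : dξ = z0⁻¹ • (dZ - dZ0 • Ψ - Z0 • dΨ) - (dz0 * z0⁻¹) • ξ)
    {h1 : ℂ} (hh : h1 = -(dz0 * conj z0) + inner ℂ z dz) :
    dξ + Gam Ψ dΨ ξ = z0⁻¹ • ((dZ + h1 • Z + dz) - (dZ0 + h1 * Z0 + dz0) • Ψ) := by
  have hc0 : conj z0 ≠ 0 := by simpa using hz0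
  have hn0 : ‖z0‖ ≠ 0 := by simpa using hz0
  have hn : ((‖z0‖ : ℂ)) ^ 2 = conj z0 * z0 := by
    rw [Complex.conj_mul']
  have hρ : ((1 / (1 - ‖Ψ‖ ^ 2) : ℝ) : ℂ) = conj z0 * z0 := by
    have : 1 / (1 - ‖Ψ‖ ^ 2) = ‖z0‖ ^ 2 := by
      rw [hΨ, norm_smul, norm_inv, mul_pow, hneg]
      field_simp
      ring
    rw [this, ← hn]
    push_cast
    ring
  have hzΨ : inner ℂ z Ψ = conj z0 - z0⁻¹ := by
    rw [hΨ, inner_smul_right, inner_self_eq_norm_sq_to_K]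
    have : ((‖z‖ : ℂ)) ^ 2 = conj z0 * z0 - 1 := by
      rw [← hn]
      exact_mod_cast hneg
    simp only [Complex.coe_algebraMap] at *
    rw [this]
    field_simp
  have h2 : (conj z0 * z0) * inner ℂ Ψ dΨ = h1 + dz0 * z0⁻¹ := by
    rw [hdΨ]
    conv_lhs => rw [hΨ]
    rw [inner_smul_left, inner_smul_right, inner_sub_right, inner_smul_right, ← hΨ, hzΨ, hh]
    simp only [map_inv₀]
    field_simp
    ring
  have h3 : (conj z0 * z0) * inner ℂ Ψ ξ = 1 + Z0 * z0⁻¹ := by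
    rw [hξ]
    conv_lhs => rw [hΨ]
    rw [inner_smul_left, inner_smul_right, inner_sub_right, inner_smul_right, ← hΨ, hzΨ]
    have : inner ℂ z Z = 1 + Z0 * conj z0 := by rw [← hZ]; ring
    rw [this]
    simp only [map_inv₀]
    field_simp
    ring
  unfold Gam
  rw [hρ, smul_add, smul_smul, smul_smul, h2, h3, hdξ]
  have h4 : h1 • ξ = z0⁻¹ • (h1 • Z - (h1 * Z0) • Ψ) := by
    rw [hξ]; module
  have h5 : dΨ = z0⁻¹ • (dz - dz0 • Ψ) := hdΨ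
  calc _ = z0⁻¹ • (dZ - dZ0 • Ψ) + h1 • ξ + dΨ := by module
    _ = _ := by rw [h4, h5]; module

/-- the Hermitian form of signature `(n,1)` on pairs -/
noncomputable def hf {n : ℕ} (U0 : ℂ) (U : Cn n) (V0 : ℂ) (V : Cn n) : ℂ :=
  -(conj U0 * V0) + inner ℂ U V

lemma bergman_homog {n : ℕ} {z0 U0 V0 : ℂ} {z U V Ψ : Cn n} (hz0 : z0 ≠ 0)
    (hneg : ‖z‖ ^ 2 = ‖z0‖ ^ 2 - 1) (hΨ : Ψ = z0⁻¹ • z) :
    bergman (-1) Ψ (z0⁻¹ • (U - U0 • Ψ)) (z0⁻¹ • (V - V0 • Ψ)) =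
      (hf U0 U V0 V + hf U0 U z0 z * hf z0 z V0 V).re := by
  have hc0 : conj z0 ≠ 0 := by simpa using hz0
  have hn0 : ‖z0‖ ≠ 0 := by simpa using hz0
  have hn : ((‖z0‖ : ℂ)) ^ 2 = conj z0 * z0 := by
    rw [Complex.conj_mul']
  have hm : ‖Ψ‖ ^ 2 = 1 - (‖z0‖ ^ 2)⁻¹ := by
    rw [hΨ, norm_smul, norm_inv, mul_pow, hneg]
    field_simp
  have hmC : ((‖Ψ‖ : ℂ)) ^ 2 = 1 - (conj z0 * z0)⁻¹ := by
    rw [← hn]; exact_mod_cast congrArg (fun r : ℝ => (r : ℂ)) hm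
  have hz : z = z0 • Ψ := by
    rw [hΨ, smul_smul, mul_inv_cancel₀ hz0, one_smul]
  rw [bergman_eq]
  unfold hf
  rw [hm, hz]
  simp only [inner_smul_left, inner_smul_right, inner_sub_left, inner_sub_right, map_inv₀]
  rw [inner_self_eq_norm_sq_to_K]
  simp only [Complex.coe_algebraMap]
  rw [hmC]
  generalize (inner ℂ U Ψ : ℂ) = A
  generalize (inner ℂ Ψ V : ℂ) = B
  generalize (inner ℂ U V : ℂ) = C
  have e : ∀ X Y : ℂ, -1 / -1 * (((1 - (1 - (‖z0‖ ^ 2)⁻¹)) * X.re + Y.re) /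
      (1 - (1 - (‖z0‖ ^ 2)⁻¹)) ^ 2) = ((conj z0 * z0) * X + (conj z0 * z0) ^ 2 * Y).re := by
    intro X Y
    rw [← hn]
    have : ((‖z0‖ : ℂ) ^ 2 * X + ((‖z0‖ : ℂ) ^ 2) ^ 2 * Y).re =
        ‖z0‖ ^ 2 * X.re + (‖z0‖ ^ 2) ^ 2 * Y.re := by
      rw [← Complex.ofReal_pow, ← Complex.ofReal_pow, Complex.add_re, Complex.re_ofReal_mul,
        Complex.re_ofReal_mul]
    rw [this]
    field_simp
    ring
  rw [e]
  congr 1
  field_simp
  ring

/-! ### The example -/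

noncomputable def X (i : Fin 5) (p : Rn 5) : ℂ := ((p i : ℝ) : ℂ)

noncomputable def xx (p : Rn 5) : ℂ :=
  (1 / 2) * -(1 + X 2 p * X 2 p + X 3 p * X 3 p + X 4 p * X 4 p) + Complex.I * X 1 p

noncomputable def z0 (p : Rn 5) : ℂ :=
  (1 / 2) * xx p - 1 + Complex.I * (X 2 p * X 0 p) + (1 / 2) * (xx p * (X 0 p * X 0 p))
noncomputable def z1 (p : Rn 5) : ℂ := Complex.I * X 2 p + X 0 p * xx p
noncomputable def z2 (p : Rn 5) : ℂ := X 3 p + Complex.I * X 4 p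
noncomputable def z3 (p : Rn 5) : ℂ :=
  (1 / 2) * xx p + 1 - Complex.I * (X 2 p * X 0 p) - (1 / 2) * (xx p * (X 0 p * X 0 p))
noncomputable def Z0 (p : Rn 5) : ℂ := (1 / 2) * (1 + X 0 p * X 0 p)
noncomputable def Z3 (p : Rn 5) : ℂ := (1 / 2) * (1 - X 0 p * X 0 p)

noncomputable def vec (a b c : ℂ) : Cn 3 := !₂[a, b, c]

noncomputable def zz (p : Rn 5) : Cn 3 := vec (z1 p) (z2 p) (z3 p)
noncomputable def ZZ (p : Rn 5) : Cn 3 := vec (X 0 p) 0 (Z3 p)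

noncomputable def Psi (p : Rn 5) : Cn 3 := (z0 p)⁻¹ • zz p
noncomputable def xi1 (p : Rn 5) : Cn 3 := (z0 p)⁻¹ • (ZZ p - Z0 p • Psi p)

noncomputable def dxx (p v : Rn 5) : ℂ :=
  -(X 2 p * X 2 v + X 3 p * X 3 v + X 4 p * X 4 v) + Complex.I * X 1 v
noncomputable def dz0 (p v : Rn 5) : ℂ :=
  (1 / 2) * dxx p v + Complex.I * (X 2 v * X 0 p + X 2 p * X 0 v) +
    (1 / 2) * (dxx p v * (X 0 p * X 0 p)) + xx p * (X 0 p * X 0 v)
noncomputable def dz1 (p v : Rn 5) : ℂ := Complex.I * X 2 v + X 0 v * xx p + X 0 p * dxx p v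
noncomputable def dz2 (v : Rn 5) : ℂ := X 3 v + Complex.I * X 4 v
noncomputable def dz3 (p v : Rn 5) : ℂ :=
  (1 / 2) * dxx p v - Complex.I * (X 2 v * X 0 p + X 2 p * X 0 v) -
    (1 / 2) * (dxx p v * (X 0 p * X 0 p)) - xx p * (X 0 p * X 0 v)
noncomputable def dZ0 (p v : Rn 5) : ℂ := X 0 p * X 0 v
noncomputable def dZ3 (p v : Rn 5) : ℂ := -(X 0 p * X 0 v)

lemma hX (i : Fin 5) (p : Rn 5) : ∃ L : Rn 5 →L[ℝ] ℂ, HasFDerivAt (X i) L p ∧ ∀ v, L v = X i v :=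
  ⟨Complex.ofRealCLM.comp (EuclideanSpace.proj i),
    (Complex.ofRealCLM.comp (EuclideanSpace.proj i : Rn 5 →L[ℝ] ℝ)).hasFDerivAt, fun _ => rfl⟩

lemma hxx (p : Rn 5) : ∃ L : Rn 5 →L[ℝ] ℂ, HasFDerivAt xx L p ∧ ∀ v, L v = dxx p v := by
  obtain ⟨L1, h1, e1⟩ := hX 1 p
  obtain ⟨L2, h2, e2⟩ := hX 2 p
  obtain ⟨L3, h3, e3⟩ := hX 3 p
  obtain ⟨L4, h4, e4⟩ := hX 4 p
  refine ⟨_, (((((h2.mul h2).const_add 1).add (h3.mul h3)).add (h4.mul h4)).neg.const_mul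
    (1 / 2)).add (h1.const_mul Complex.I), fun v => ?_⟩
  simp [e1, e2, e3, e4, dxx]
  ring

lemma hz0' (p : Rn 5) : ∃ L : Rn 5 →L[ℝ] ℂ, HasFDerivAt z0 L p ∧ ∀ v, L v = dz0 p v := by
  obtain ⟨L0, h0, e0⟩ := hX 0 p
  obtain ⟨L2, h2, e2⟩ := hX 2 p
  obtain ⟨Lx, hx, ex⟩ := hxx p
  refine ⟨_, ((((hx.const_mul (1 / 2)).sub_const 1).add ((h2.mul h0).const_mul Complex.I)).add
    ((hx.mul (h0.mul h0)).const_mul (1 / 2))), fun v => ?_⟩
  simp [e0, e2, ex, dz0]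
  ring

lemma hz1' (p : Rn 5) : ∃ L : Rn 5 →L[ℝ] ℂ, HasFDerivAt z1 L p ∧ ∀ v, L v = dz1 p v := by
  obtain ⟨L0, h0, e0⟩ := hX 0 p
  obtain ⟨L2, h2, e2⟩ := hX 2 p
  obtain ⟨Lx, hx, ex⟩ := hxx p
  refine ⟨_, (h2.const_mul Complex.I).add (h0.mul hx), fun v => ?_⟩
  simp [e0, e2, ex, dz1]
  ring

lemma hz2' (p : Rn 5) : ∃ L : Rn 5 →L[ℝ] ℂ, HasFDerivAt z2 L p ∧ ∀ v, L v = dz2 v := by
  obtain ⟨L3, h3, e3⟩ := hX 3 p
  obtain ⟨L4, h4, e4⟩ := hX 4 p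
  refine ⟨_, h3.add (h4.const_mul Complex.I), fun v => ?_⟩
  simp [e3, e4, dz2]

lemma hz3' (p : Rn 5) : ∃ L : Rn 5 →L[ℝ] ℂ, HasFDerivAt z3 L p ∧ ∀ v, L v = dz3 p v := by
  obtain ⟨L0, h0, e0⟩ := hX 0 p
  obtain ⟨L2, h2, e2⟩ := hX 2 p
  obtain ⟨Lx, hx, ex⟩ := hxx p
  refine ⟨_, ((((hx.const_mul (1 / 2)).add_const 1).sub ((h2.mul h0).const_mul Complex.I)).sub
    ((hx.mul (h0.mul h0)).const_mul (1 / 2))), fun v => ?_⟩
  simp [e0, e2, ex, dz3]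
  ring

lemma hZ0' (p : Rn 5) : ∃ L : Rn 5 →L[ℝ] ℂ, HasFDerivAt Z0 L p ∧ ∀ v, L v = dZ0 p v := by
  obtain ⟨L0, h0, e0⟩ := hX 0 p
  refine ⟨_, (((h0.mul h0).const_add 1).const_mul (1 / 2)), fun v => ?_⟩
  simp [e0, dZ0]
  ring

lemma hZ3' (p : Rn 5) : ∃ L : Rn 5 →L[ℝ] ℂ, HasFDerivAt Z3 L p ∧ ∀ v, L v = dZ3 p v := by
  obtain ⟨L0, h0, e0⟩ := hX 0 p
  refine ⟨_, (((h0.mul h0).const_sub 1).const_mul (1 / 2)), fun v => ?_⟩
  simp [e0, dZ3]
  ring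

lemma vec_eq (a b c : ℂ) : vec a b c = a • vec 1 0 0 + b • vec 0 1 0 + c • vec 0 0 1 := by
  ext i
  fin_cases i <;> simp [vec]

lemma hasFDerivAt_vec {a b c : Rn 5 → ℂ} {p : Rn 5} {La Lb Lc : Rn 5 →L[ℝ] ℂ}
    (ha : HasFDerivAt a La p) (hb : HasFDerivAt b Lb p) (hc : HasFDerivAt c Lc p) :
    ∃ L : Rn 5 →L[ℝ] Cn 3, HasFDerivAt (fun p => vec (a p) (b p) (c p)) L p ∧
      ∀ v, L v = vec (La v) (Lb v) (Lc v) := by
  have h := ((ha.smul_const (vec 1 0 0)).add (hb.smul_const (vec 0 1 0))).add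
    (hc.smul_const (vec 0 0 1))
  have e : (fun p => vec (a p) (b p) (c p)) =
      fun p => a p • vec 1 0 0 + b p • vec 0 1 0 + c p • vec 0 0 1 := by
    funext p; exact vec_eq _ _ _
  rw [e]
  refine ⟨_, h, fun v => ?_⟩
  rw [vec_eq (La v)]
  rfl

lemma hzz (p : Rn 5) : ∃ L : Rn 5 →L[ℝ] Cn 3, HasFDerivAt zz L p ∧
    ∀ v, L v = vec (dz1 p v) (dz2 v) (dz3 p v) := by
  obtain ⟨L1, h1, e1⟩ := hz1' p
  obtain ⟨L2, h2, e2⟩ := hz2' p
  obtain ⟨L3, h3, e3⟩ := hz3' p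
  obtain ⟨L, h, e⟩ := hasFDerivAt_vec h1 h2 h3
  exact ⟨L, h, fun v => by rw [e, e1, e2, e3]⟩

lemma hZZ (p : Rn 5) : ∃ L : Rn 5 →L[ℝ] Cn 3, HasFDerivAt ZZ L p ∧
    ∀ v, L v = vec (X 0 v) 0 (dZ3 p v) := by
  obtain ⟨L1, h1, e1⟩ := hX 0 p
  obtain ⟨L3, h3, e3⟩ := hZ3' p
  obtain ⟨L, h, e⟩ := hasFDerivAt_vec h1 (hasFDerivAt_const (0:ℂ) p) h3
  exact ⟨L, h, fun v => by rw [e, e1, e3]; rfl⟩

lemma z0_ne (p : Rn 5) : z0 p ≠ 0 := by
  intro h
  have := congrArg Complex.re h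
  simp [z0, xx, X] at this
  nlinarith [sq_nonneg (p 0), sq_nonneg (p 2), sq_nonneg (p 3), sq_nonneg (p 4),
    mul_nonneg (sq_nonneg (p 2)) (sq_nonneg (p 0)), mul_nonneg (sq_nonneg (p 3)) (sq_nonneg (p 0)),
    mul_nonneg (sq_nonneg (p 4)) (sq_nonneg (p 0))]

lemma hPsi (p : Rn 5) : ∃ L : Rn 5 →L[ℝ] Cn 3, HasFDerivAt Psi L p ∧
    ∀ v, L v = (z0 p)⁻¹ • (vec (dz1 p v) (dz2 v) (dz3 p v) - dz0 p v • Psi p) := by
  obtain ⟨L0, h0, e0⟩ := hz0' p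
  obtain ⟨L1, h1, e1⟩ := hzz p
  have h2 : HasFDerivAt (fun p => (z0 p)⁻¹) _ p :=
    (hasFDerivAt_inv' (𝕜 := ℝ) (z0_ne p)).comp p h0
  have h3 := h2.smul h1
  refine ⟨_, h3, fun v => ?_⟩
  simp only [add_apply, smul_apply, ContinuousLinearMap.smulRight_apply,
    ContinuousLinearMap.comp_apply, neg_apply, ContinuousLinearMap.mulLeftRight_apply, e0, e1]
  unfold Psi
  module

lemma hxi1 (p : Rn 5) : ∃ L : Rn 5 →L[ℝ] Cn 3, HasFDerivAt xi1 L p ∧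
    ∀ v, L v = (z0 p)⁻¹ • (vec (X 0 v) 0 (dZ3 p v) - dZ0 p v • Psi p -
      Z0 p • ((z0 p)⁻¹ • (vec (dz1 p v) (dz2 v) (dz3 p v) - dz0 p v • Psi p))) -
      (dz0 p v * (z0 p)⁻¹) • xi1 p := by
  obtain ⟨L0, h0, e0⟩ := hz0' p
  obtain ⟨L1, h1, e1⟩ := hZZ p
  obtain ⟨L2, h2, e2⟩ := hPsi p
  obtain ⟨L3, h3, e3⟩ := hZ0' p
  have h4 : HasFDerivAt (fun p => (z0 p)⁻¹) _ p :=
    (hasFDerivAt_inv' (𝕜 := ℝ) (z0_ne p)).comp p h0
  have h5 := h4.smul (h1.sub (h3.smul h2))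
  refine ⟨_, h5, fun v => ?_⟩
  simp only [add_apply, smul_apply, sub_apply, ContinuousLinearMap.smulRight_apply,
    ContinuousLinearMap.comp_apply, neg_apply, ContinuousLinearMap.mulLeftRight_apply, e0, e1, e2,
    e3, Pi.sub_apply, Pi.smul_apply']
  unfold xi1
  module

lemma inner_vec (a b c a' b' c' : ℂ) :
    inner ℂ (vec a b c) (vec a' b' c') = conj a * a' + conj b * b' + conj c * c' := by
  simp [vec, PiLp.inner_apply, Fin.sum_univ_three]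
  ring

@[simp] lemma X_re (i : Fin 5) (p : Rn 5) : (X i p).re = p i := rfl
@[simp] lemma X_im (i : Fin 5) (p : Rn 5) : (X i p).im = 0 := rfl

lemma xx_re (p : Rn 5) : (xx p).re = -(1 + p 2 ^ 2 + p 3 ^ 2 + p 4 ^ 2) / 2 := by
  simp [xx]; ring
lemma xx_im (p : Rn 5) : (xx p).im = p 1 := by
  simp [xx]
lemma z0_re (p : Rn 5) : (z0 p).re =
    -(1 + p 2 ^ 2 + p 3 ^ 2 + p 4 ^ 2) / 4 * (1 + p 0 ^ 2) - 1 := by
  simp [z0, xx_re, xx_im]; ring
lemma z0_im (p : Rn 5) : (z0 p).im = p 1 / 2 * (1 + p 0 ^ 2) + p 0 * p 2 := by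
  simp [z0, xx_re, xx_im]; ring
lemma z1_re (p : Rn 5) : (z1 p).re = -(1 + p 2 ^ 2 + p 3 ^ 2 + p 4 ^ 2) / 2 * p 0 := by
  simp [z1, xx_re, xx_im]; ring
lemma z1_im (p : Rn 5) : (z1 p).im = p 2 + p 0 * p 1 := by
  simp [z1, xx_re, xx_im]
lemma z2_re (p : Rn 5) : (z2 p).re = p 3 := by simp [z2]
lemma z2_im (p : Rn 5) : (z2 p).im = p 4 := by simp [z2]
lemma z3_re (p : Rn 5) : (z3 p).re =
    -(1 + p 2 ^ 2 + p 3 ^ 2 + p 4 ^ 2) / 4 * (1 - p 0 ^ 2) + 1 := by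
  simp [z3, xx_re, xx_im]; ring
lemma z3_im (p : Rn 5) : (z3 p).im = p 1 / 2 * (1 - p 0 ^ 2) - p 0 * p 2 := by
  simp [z3, xx_re, xx_im]; ring
lemma Z0_re (p : Rn 5) : (Z0 p).re = (1 + p 0 ^ 2) / 2 := by simp [Z0]; ring
lemma Z0_im (p : Rn 5) : (Z0 p).im = 0 := by simp [Z0]
lemma Z3_re (p : Rn 5) : (Z3 p).re = (1 - p 0 ^ 2) / 2 := by simp [Z3]; ring
lemma Z3_im (p : Rn 5) : (Z3 p).im = 0 := by simp [Z3]

lemma sq_norm_eq (z : ℂ) : ((‖z‖ ^ 2 : ℝ) : ℂ) = conj z * z := by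
  rw [Complex.conj_mul']; push_cast; rfl

lemma sq_norm_vec (a b c : ℂ) :
    ((‖vec a b c‖ ^ 2 : ℝ) : ℂ) = conj a * a + conj b * b + conj c * c := by
  rw [← inner_vec, inner_self_eq_norm_sq_to_K]; push_cast; rfl

lemma hneg (p : Rn 5) : ‖zz p‖ ^ 2 = ‖z0 p‖ ^ 2 - 1 := by
  have h : ((‖zz p‖ ^ 2 : ℝ) : ℂ) = ((‖z0 p‖ ^ 2 - 1 : ℝ) : ℂ) := by
    rw [Complex.ofReal_sub, sq_norm_eq]
    unfold zz
    rw [sq_norm_vec]
    apply Complex.ext
    · simp [z0_re, z0_im, z1_re, z1_im, z2_re, z2_im, z3_re, z3_im]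
      ring
    · simp [z0_re, z0_im, z1_re, z1_im, z2_re, z2_im, z3_re, z3_im]
      ring
  exact_mod_cast h

lemma hZ (p : Rn 5) : -(Z0 p * conj (z0 p)) + inner ℂ (zz p) (ZZ p) = 1 := by
  unfold zz ZZ
  rw [inner_vec]
  apply Complex.ext
  · simp [z0_re, z0_im, z1_re, z1_im, z2_re, z2_im, z3_re, z3_im, Z0_re, Z0_im, Z3_re, Z3_im]
    ring
  · simp [z0_re, z0_im, z1_re, z1_im, z2_re, z2_im, z3_re, z3_im, Z0_re, Z0_im, Z3_re, Z3_im]
    ring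

lemma hZZ0 (p : Rn 5) : hf (Z0 p) (ZZ p) (Z0 p) (ZZ p) = 0 := by
  unfold ZZ hf
  rw [inner_vec]
  apply Complex.ext
  · simp [Z0_re, Z0_im, Z3_re, Z3_im]
    ring
  · simp [Z0_re, Z0_im, Z3_re, Z3_im]

noncomputable def h1 (p v : Rn 5) : ℂ :=
  -(dz0 p v * conj (z0 p)) + inner ℂ (zz p) (vec (dz1 p v) (dz2 v) (dz3 p v))

lemma dxx_re (p v : Rn 5) : (dxx p v).re = -(p 2 * v 2 + p 3 * v 3 + p 4 * v 4) := by
  simp [dxx]
lemma dxx_im (p v : Rn 5) : (dxx p v).im = v 1 := by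
  simp [dxx]
lemma dz0_re (p v : Rn 5) : (dz0 p v).re =
    -(p 2 * v 2 + p 3 * v 3 + p 4 * v 4) / 2 * (1 + p 0 ^ 2) -
      (1 + p 2 ^ 2 + p 3 ^ 2 + p 4 ^ 2) / 2 * (p 0 * v 0) := by
  simp [dz0, xx_re, xx_im, dxx_re, dxx_im]; ring
lemma dz0_im (p v : Rn 5) : (dz0 p v).im =
    v 1 / 2 * (1 + p 0 ^ 2) + p 1 * p 0 * v 0 + v 2 * p 0 + p 2 * v 0 := by
  simp [dz0, xx_re, xx_im, dxx_re, dxx_im]; ring
lemma dz1_re (p v : Rn 5) : (dz1 p v).re =
    -(p 2 * v 2 + p 3 * v 3 + p 4 * v 4) * p 0 - (1 + p 2 ^ 2 + p 3 ^ 2 + p 4 ^ 2) / 2 * v 0 := by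
  simp [dz1, xx_re, xx_im, dxx_re, dxx_im]; ring
lemma dz1_im (p v : Rn 5) : (dz1 p v).im = v 2 + v 0 * p 1 + p 0 * v 1 := by
  simp [dz1, xx_re, xx_im, dxx_re, dxx_im]
lemma dz2_re (v : Rn 5) : (dz2 v).re = v 3 := by simp [dz2]
lemma dz2_im (v : Rn 5) : (dz2 v).im = v 4 := by simp [dz2]
lemma dz3_re (p v : Rn 5) : (dz3 p v).re =
    -(p 2 * v 2 + p 3 * v 3 + p 4 * v 4) / 2 * (1 - p 0 ^ 2) +
      (1 + p 2 ^ 2 + p 3 ^ 2 + p 4 ^ 2) / 2 * (p 0 * v 0) := by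
  simp [dz3, xx_re, xx_im, dxx_re, dxx_im]; ring
lemma dz3_im (p v : Rn 5) : (dz3 p v).im =
    v 1 / 2 * (1 - p 0 ^ 2) - p 1 * p 0 * v 0 - v 2 * p 0 - p 2 * v 0 := by
  simp [dz3, xx_re, xx_im, dxx_re, dxx_im]; ring
lemma dZ0_re (p v : Rn 5) : (dZ0 p v).re = p 0 * v 0 := by simp [dZ0]
lemma dZ0_im (p v : Rn 5) : (dZ0 p v).im = 0 := by simp [dZ0]
lemma dZ3_re (p v : Rn 5) : (dZ3 p v).re = -(p 0 * v 0) := by simp [dZ3]
lemma dZ3_im (p v : Rn 5) : (dZ3 p v).im = 0 := by simp [dZ3]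

lemma I_mul_re (r : ℝ) : (Complex.I * (r : ℂ)).re = 0 := by simp
lemma I_mul_im (r : ℝ) : (Complex.I * (r : ℂ)).im = r := by simp

/-- general value of `h1` -/
lemma h1_eq (p v : Rn 5) : h1 p v = Complex.I * ((v 1 + p 3 * v 4 - p 4 * v 3 +
    (1 + p 2 ^ 2 + p 3 ^ 2 + p 4 ^ 2) * p 2 * v 0 : ℝ) : ℂ) := by
  unfold h1 zz
  rw [inner_vec]
  apply Complex.ext
  · rw [I_mul_re]
    simp [z0_re, z0_im, z1_re, z1_im, z2_re, z2_im, z3_re, z3_im, dz0_re, dz0_im, dz1_re, dz1_im,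
      dz2_re, dz2_im, dz3_re, dz3_im]
    ring
  · rw [I_mul_im]
    simp [z0_re, z0_im, z1_re, z1_im, z2_re, z2_im, z3_re, z3_im, dz0_re, dz0_im, dz1_re, dz1_im,
      dz2_re, dz2_im, dz3_re, dz3_im]
    ring

/-- the vector `∇_v ξ₁` -/
lemma nabla1 (p v : Rn 5) :
    fderiv ℝ xi1 p v + Gam (Psi p) (fderiv ℝ Psi p v) (xi1 p) =
      (z0 p)⁻¹ • ((vec (X 0 v) 0 (dZ3 p v) + h1 p v • ZZ p + vec (dz1 p v) (dz2 v) (dz3 p v)) -
        (dZ0 p v + h1 p v * Z0 p + dz0 p v) • Psi p) := by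
  obtain ⟨L1, d1, e1⟩ := hPsi p
  obtain ⟨L2, d2, e2⟩ := hxi1 p
  rw [d1.fderiv, d2.fderiv, e1, e2]
  exact nabla_homog (z0_ne p) (hneg p) (hZ p) rfl rfl rfl rfl rfl

/-- criterion for principal vectors -/
lemma eig {p v : Rn 5} {h μ κ : ℂ} (hh : h1 p v = h)
    (e0 : dZ0 p v + h * Z0 p + dz0 p v = μ * dz0 p v + κ * z0 p)
    (e1 : X 0 v + h * X 0 p + dz1 p v = μ * dz1 p v + κ * z1 p)
    (e2 : dz2 v = μ * dz2 v + κ * z2 p)
    (e3 : dZ3 p v + h * Z3 p + dz3 p v = μ * dz3 p v + κ * z3 p) :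
    fderiv ℝ xi1 p v + Gam (Psi p) (fderiv ℝ Psi p v) (xi1 p) = μ • fderiv ℝ Psi p v := by
  obtain ⟨L1, d1, f1⟩ := hPsi p
  rw [nabla1, hh, e0, d1.fderiv, f1]
  have h3 : vec (X 0 v) 0 (dZ3 p v) + h • ZZ p + vec (dz1 p v) (dz2 v) (dz3 p v) =
      μ • vec (dz1 p v) (dz2 v) (dz3 p v) + κ • zz p := by
    ext i
    fin_cases i
    · simpa [vec, ZZ, zz] using e1
    · simpa [vec, ZZ, zz] using e2
    · simpa [vec, ZZ, zz] using e3
  have h4 : zz p = z0 p • Psi p := by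
    unfold Psi
    rw [smul_smul, mul_inv_cancel₀ (z0_ne p), one_smul]
  rw [h3, h4]
  module

/-- principal vectors -/
noncomputable def v1 : Rn 5 := !₂[0, 1, 0, 0, 0]
noncomputable def v2 : Rn 5 := !₂[0, 0, 1, 0, 0]
noncomputable def v3 (p : Rn 5) : Rn 5 := !₂[0, p 4, 0, 1, 0]
noncomputable def v4 (p : Rn 5) : Rn 5 := !₂[0, -p 3, 0, 0, 1]
noncomputable def v5 (p : Rn 5) : Rn 5 := !₂[1, -(p 2) ^ 3, -p 1, p 2 * p 4, -(p 2 * p 3)]

/-- the third principal curvature -/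
noncomputable def lam (p : Rn 5) : ℝ := 1 - 2 / (1 + 3 * p 2 ^ 2 + p 3 ^ 2 + p 4 ^ 2)

lemma eig1 (p : Rn 5) : fderiv ℝ xi1 p v1 + Gam (Psi p) (fderiv ℝ Psi p v1) (xi1 p) =
    ((2 : ℝ) : ℂ) • fderiv ℝ Psi p v1 := by
  have a0 : v1 0 = 0 := rfl
  have a1 : v1 1 = 1 := rfl
  have a2 : v1 2 = 0 := rfl
  have a3 : v1 3 = 0 := rfl
  have a4 : v1 4 = 0 := rfl
  refine eig (κ := 0) (h1_eq p v1) ?_ ?_ ?_ ?_ <;> apply Complex.ext <;>
    simp [z0_re, z0_im, z1_re, z1_im, z2_re, z2_im, z3_re, z3_im, dz0_re, dz0_im, dz1_re, dz1_im,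
      dz2_re, dz2_im, dz3_re, dz3_im, Z0_re, Z0_im, Z3_re, Z3_im, dZ0_re, dZ0_im, dZ3_re, dZ3_im,
      a0, a1, a2, a3, a4] <;> ring

lemma eig2 (p : Rn 5) : fderiv ℝ xi1 p v2 + Gam (Psi p) (fderiv ℝ Psi p v2) (xi1 p) =
    ((1 : ℝ) : ℂ) • fderiv ℝ Psi p v2 := by
  have a0 : v2 0 = 0 := rfl
  have a1 : v2 1 = 0 := rfl
  have a2 : v2 2 = 1 := rfl
  have a3 : v2 3 = 0 := rfl
  have a4 : v2 4 = 0 := rfl
  refine eig (κ := 0) (h1_eq p v2) ?_ ?_ ?_ ?_ <;> apply Complex.ext <;>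
    simp [z0_re, z0_im, z1_re, z1_im, z2_re, z2_im, z3_re, z3_im, dz0_re, dz0_im, dz1_re, dz1_im,
      dz2_re, dz2_im, dz3_re, dz3_im, Z0_re, Z0_im, Z3_re, Z3_im, dZ0_re, dZ0_im, dZ3_re, dZ3_im,
      a0, a1, a2, a3, a4] <;> ring

lemma eig3 (p : Rn 5) : fderiv ℝ xi1 p (v3 p) + Gam (Psi p) (fderiv ℝ Psi p (v3 p)) (xi1 p) =
    ((1 : ℝ) : ℂ) • fderiv ℝ Psi p (v3 p) := by
  have a0 : v3 p 0 = 0 := rfl
  have a1 : v3 p 1 = p 4 := rfl
  have a2 : v3 p 2 = 0 := rfl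
  have a3 : v3 p 3 = 1 := rfl
  have a4 : v3 p 4 = 0 := rfl
  refine eig (κ := 0) (h1_eq p _) ?_ ?_ ?_ ?_ <;> apply Complex.ext <;>
    simp [z0_re, z0_im, z1_re, z1_im, z2_re, z2_im, z3_re, z3_im, dz0_re, dz0_im, dz1_re, dz1_im,
      dz2_re, dz2_im, dz3_re, dz3_im, Z0_re, Z0_im, Z3_re, Z3_im, dZ0_re, dZ0_im, dZ3_re, dZ3_im,
      a0, a1, a2, a3, a4] <;> ring

lemma eig4 (p : Rn 5) : fderiv ℝ xi1 p (v4 p) + Gam (Psi p) (fderiv ℝ Psi p (v4 p)) (xi1 p) =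
    ((1 : ℝ) : ℂ) • fderiv ℝ Psi p (v4 p) := by
  have a0 : v4 p 0 = 0 := rfl
  have a1 : v4 p 1 = -p 3 := rfl
  have a2 : v4 p 2 = 0 := rfl
  have a3 : v4 p 3 = 0 := rfl
  have a4 : v4 p 4 = 1 := rfl
  refine eig (κ := 0) (h1_eq p _) ?_ ?_ ?_ ?_ <;> apply Complex.ext <;>
    simp [z0_re, z0_im, z1_re, z1_im, z2_re, z2_im, z3_re, z3_im, dz0_re, dz0_im, dz1_re, dz1_im,
      dz2_re, dz2_im, dz3_re, dz3_im, Z0_re, Z0_im, Z3_re, Z3_im, dZ0_re, dZ0_im, dZ3_re, dZ3_im,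
      a0, a1, a2, a3, a4] <;> ring

lemma h1_v5 (p : Rn 5) : h1 p (v5 p) = Complex.I * ((p 2 : ℝ) : ℂ) := by
  have a0 : v5 p 0 = 1 := rfl
  have a1 : v5 p 1 = -(p 2) ^ 3 := rfl
  have a2 : v5 p 2 = -p 1 := rfl
  have a3 : v5 p 3 = p 2 * p 4 := rfl
  have a4 : v5 p 4 = -(p 2 * p 3) := rfl
  rw [h1_eq, a0, a1, a3, a4]
  congr 2
  ring

lemma eig5 (p : Rn 5) : fderiv ℝ xi1 p (v5 p) + Gam (Psi p) (fderiv ℝ Psi p (v5 p)) (xi1 p) =
    ((lam p : ℝ) : ℂ) • fderiv ℝ Psi p (v5 p) := by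
  have a0 : v5 p 0 = 1 := rfl
  have a1 : v5 p 1 = -(p 2) ^ 3 := rfl
  have a2 : v5 p 2 = -p 1 := rfl
  have a3 : v5 p 3 = p 2 * p 4 := rfl
  have a4 : v5 p 4 = -(p 2 * p 3) := rfl
  have hne : 1 + 3 * p 2 ^ 2 + p 3 ^ 2 + p 4 ^ 2 ≠ 0 := by positivity
  refine eig (κ := Complex.I * ((-(2 * p 2 / (1 + 3 * p 2 ^ 2 + p 3 ^ 2 + p 4 ^ 2)) : ℝ) : ℂ))
    (h1_v5 p) ?_ ?_ ?_ ?_ <;> apply Complex.ext <;>
    simp only [Complex.add_re, Complex.add_im, Complex.mul_re, Complex.mul_im, I_mul_re, I_mul_im,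
      Complex.ofReal_re, Complex.ofReal_im, X_re, X_im,
      z0_re, z0_im, z1_re, z1_im, z2_re, z2_im, z3_re, z3_im, dz0_re, dz0_im, dz1_re, dz1_im,
      dz2_re, dz2_im, dz3_re, dz3_im, Z0_re, Z0_im, Z3_re, Z3_im, dZ0_re, dZ0_im, dZ3_re, dZ3_im,
      a0, a1, a2, a3, a4, lam, Complex.I_re, Complex.I_im] <;> field_simp <;> ring

lemma Psi_ball (p : Rn 5) : ‖Psi p‖ < 1 := by
  have h0 : 0 < ‖z0 p‖ := norm_pos_iff.mpr (z0_ne p)
  have h1 := hneg p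
  have h2 : ‖zz p‖ < ‖z0 p‖ := by
    nlinarith [norm_nonneg (zz p)]
  unfold Psi
  rw [norm_smul, norm_inv, inv_mul_lt_one₀ h0]
  exact h2

/-- injectivity of the differential -/
lemma dPsi_inj (p v : Rn 5) (h : fderiv ℝ Psi p v = 0) : v = 0 := by
  obtain ⟨L1, d1, f1⟩ := hPsi p
  rw [d1.fderiv, f1, smul_eq_zero] at h
  have h2 : vec (dz1 p v) (dz2 v) (dz3 p v) = dz0 p v • Psi p := by
    rcases h with h | h
    · exact absurd h (inv_ne_zero (z0_ne p))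
    · exact sub_eq_zero.mp h
  unfold Psi at h2
  rw [smul_smul] at h2
  set κ := dz0 p v * (z0 p)⁻¹ with hκ
  have g0 : dz0 p v = κ * z0 p := by
    rw [hκ, mul_assoc, inv_mul_cancel₀ (z0_ne p), mul_one]
  have g1 : dz1 p v = κ * z1 p := by
    have := congrArg (fun w : Cn 3 => w 0) h2
    simpa [vec, zz] using this
  have g2 : dz2 v = κ * z2 p := by
    have := congrArg (fun w : Cn 3 => w 1) h2
    simpa [vec, zz] using this
  have g3 : dz3 p v = κ * z3 p := by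
    have := congrArg (fun w : Cn 3 => w 2) h2
    simpa [vec, zz] using this
  have hx : z0 p + z3 p = xx p := by unfold z0 z3; ring
  have hdx : dz0 p v + dz3 p v = dxx p v := by unfold dz0 dz3; ring
  have ex : dxx p v = κ * xx p := by rw [← hdx, g0, g3, ← hx]; ring
  have ea : Complex.I * X 2 v = κ * (Complex.I * X 2 p) - X 0 v * xx p := by
    have := g1
    unfold dz1 z1 at this
    rw [ex] at this
    linear_combination this
  have eκ : κ = -(Complex.I * (X 2 p * X 0 v)) := by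
    have e0 := g0
    have e3 := g3
    unfold dz0 z0 at e0
    unfold dz3 z3 at e3
    rw [ex] at e0 e3
    linear_combination (1 / 2) * e0 - (1 / 2) * e3 - X 0 p * ea
  rw [eκ] at ea
  have ea_re := congrArg Complex.re ea
  have ea_im := congrArg Complex.im ea
  simp [xx_re, xx_im] at ea_re ea_im
  have hv0 : v 0 = 0 := by
    have : v 0 * (p 2 ^ 2 + (1 + p 2 ^ 2 + p 3 ^ 2 + p 4 ^ 2) / 2) = 0 := by linarith
    rcases mul_eq_zero.mp this with h | h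
    · exact h
    · have : 0 < p 2 ^ 2 + (1 + p 2 ^ 2 + p 3 ^ 2 + p 4 ^ 2) / 2 := by positivity
      linarith
  have hX0 : X 0 v = 0 := by unfold X; rw [hv0]; rfl
  have hκ0 : κ = 0 := by rw [eκ, hX0]; simp
  have hv2 : v 2 = 0 := by rw [hv0] at ea_im; linarith
  rw [hκ0, zero_mul] at g2 ex
  have g2re := congrArg Complex.re g2
  have g2im := congrArg Complex.im g2
  rw [dz2_re] at g2re
  rw [dz2_im] at g2im
  have g1im := congrArg Complex.im ex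
  rw [dxx_im] at g1im
  ext i
  fin_cases i
  · exact hv0
  · exact g1im
  · exact hv2
  · exact g2re
  · exact g2im

lemma Psi_immersion (p : Rn 5) : Function.Injective (fderiv ℝ Psi p) := by
  rw [injective_iff_map_eq_zero]
  exact fun v hv => dPsi_inj p v hv

/-- decomposition in the principal frame -/
lemma decomp (p v : Rn 5) : v = (v 1 + p 2 ^ 3 * v 0 - p 4 * (v 3 - p 2 * p 4 * v 0) +
      p 3 * (v 4 + p 2 * p 3 * v 0)) • v1 + (v 2 + p 1 * v 0) • v2 +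
      (v 3 - p 2 * p 4 * v 0) • v3 p + (v 4 + p 2 * p 3 * v 0) • v4 p + v 0 • v5 p := by
  ext i
  fin_cases i <;> simp [v1, v2, v3, v4, v5] <;> ring

/-- the operator `v ↦ ∇_v ξ₁` -/
noncomputable def nab (p : Rn 5) : Rn 5 →ₗ[ℝ] Cn 3 where
  toFun v := fderiv ℝ xi1 p v + Gam (Psi p) (fderiv ℝ Psi p v) (xi1 p)
  map_add' v w := by
    unfold Gam
    rw [map_add, map_add, inner_add_right]
    module
  map_smul' r v := by
    unfold Gam
    rw [map_smul, map_smul, ← Complex.coe_smul, ← Complex.coe_smul, inner_smul_right,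
      RingHom.id_apply, ← Complex.coe_smul]
    module

lemma nab_apply (p v : Rn 5) : nab p v =
    fderiv ℝ xi1 p v + Gam (Psi p) (fderiv ℝ Psi p v) (xi1 p) := rfl

lemma eig_unique {p v : Rn 5} {μ : ℝ} (hv : v ≠ 0) (h : nab p v = μ • fderiv ℝ Psi p v) :
    μ = 2 ∨ μ = 1 ∨ μ = lam p := by
  by_contra hcon
  push Not at hcon
  obtain ⟨h2, h1, hl⟩ := hcon
  have e1 : nab p v1 = (2:ℝ) • fderiv ℝ Psi p v1 := by
    rw [nab_apply, eig1, Complex.coe_smul]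
  have e2 : nab p v2 = (1:ℝ) • fderiv ℝ Psi p v2 := by
    rw [nab_apply, eig2, Complex.coe_smul]
  have e3 : nab p (v3 p) = (1:ℝ) • fderiv ℝ Psi p (v3 p) := by
    rw [nab_apply, eig3, Complex.coe_smul]
  have e4 : nab p (v4 p) = (1:ℝ) • fderiv ℝ Psi p (v4 p) := by
    rw [nab_apply, eig4, Complex.coe_smul]
  have e5 : nab p (v5 p) = lam p • fderiv ℝ Psi p (v5 p) := by
    rw [nab_apply, eig5, Complex.coe_smul]
  have hd := decomp p v
  set c1 := v 1 + p 2 ^ 3 * v 0 - p 4 * (v 3 - p 2 * p 4 * v 0) + p 3 * (v 4 + p 2 * p 3 * v 0)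
  set c2 := v 2 + p 1 * v 0
  set c3 := v 3 - p 2 * p 4 * v 0
  set c4 := v 4 + p 2 * p 3 * v 0
  have h3 : fderiv ℝ Psi p (((2 - μ) * c1) • v1 + ((1 - μ) * c2) • v2 + ((1 - μ) * c3) • v3 p +
      ((1 - μ) * c4) • v4 p + ((lam p - μ) * v 0) • v5 p) = 0 := by
    have h4 : nab p v - μ • fderiv ℝ Psi p v = 0 := by rw [h, sub_self]
    rw [hd] at h4
    simp only [map_add, map_smul] at h4 ⊢
    rw [e1, e2, e3, e4, e5] at h4
    rw [← h4]
    module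
  have h5 := dPsi_inj p _ h3
  have a0 := congrArg (fun w : Rn 5 => w 0) h5
  have a1 := congrArg (fun w : Rn 5 => w 1) h5
  have a2 := congrArg (fun w : Rn 5 => w 2) h5
  have a3 := congrArg (fun w : Rn 5 => w 3) h5
  have a4 := congrArg (fun w : Rn 5 => w 4) h5
  simp [v1, v2, v3, v4, v5] at a0 a1 a2 a3 a4
  have b0 : v 0 = 0 := by
    rcases a0 with h | h
    · exact absurd (sub_eq_zero.mp h).symm hl
    · exact h
  have n1 : 1 - μ ≠ 0 := sub_ne_zero.mpr (Ne.symm h1)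
  have n2 : 2 - μ ≠ 0 := sub_ne_zero.mpr (Ne.symm h2)
  rw [b0] at a1 a2 a3 a4
  have b3 : c3 = 0 := by
    have : (1 - μ) * c3 = 0 := by linarith
    exact (mul_eq_zero.mp this).resolve_left n1
  have b4 : c4 = 0 := by
    have : (1 - μ) * c4 = 0 := by linarith
    exact (mul_eq_zero.mp this).resolve_left n1
  have b2 : c2 = 0 := by
    have : (1 - μ) * c2 = 0 := by linarith
    exact (mul_eq_zero.mp this).resolve_left n1
  have b1 : c1 = 0 := by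
    rw [b3, b4] at a1
    have : (2 - μ) * c1 = 0 := by linarith
    exact (mul_eq_zero.mp this).resolve_left n2
  apply hv
  rw [hd, b0, b1, b2, b3, b4]
  simp

/-! ### The metric -/

lemma bergman_pos {n : ℕ} {ζ : Cn n} (h : ‖ζ‖ < 1) {u : Cn n} (hu : u ≠ 0) :
    0 < bergman (-1) ζ u u := by
  have hρ := rho_pos h
  simp only [bergman_eq]
  have h1 : (inner ℂ u u : ℂ).re = ‖u‖ ^ 2 := by
    rw [inner_self_eq_norm_sq_to_K]
    norm_cast
  have h2 : (inner ℂ u ζ * inner ℂ ζ u : ℂ).re = ‖(inner ℂ ζ u : ℂ)‖ ^ 2 := by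
    rw [← inner_conj_symm (𝕜 := ℂ) u ζ, Complex.conj_mul']
    norm_cast
  rw [h1, h2]
  have h3 : 0 < ‖u‖ := norm_pos_iff.mpr hu
  have h4 : 0 < (1 - ‖ζ‖ ^ 2) * ‖u‖ ^ 2 + ‖(inner ℂ ζ u : ℂ)‖ ^ 2 := by positivity
  have h5 : (-1 / -1 : ℝ) = 1 := by norm_num
  rw [h5, one_mul]
  positivity

lemma bergman_scale {n : ℕ} (c : ℝ) (ζ u v : Cn n) :
    bergman c ζ u v = (-1 / c) * bergman (-1) ζ u v := by
  simp only [bergman_eq]
  norm_num

lemma bergman_comm {n : ℕ} (c : ℝ) (ζ u v : Cn n) : bergman c ζ u v = bergman c ζ v u := by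
  simp only [bergman_eq]
  have h1 : (inner ℂ u v : ℂ).re = (inner ℂ v u).re := by
    rw [← inner_conj_symm (𝕜 := ℂ) u v, Complex.conj_re]
  have h2 : (inner ℂ u ζ * inner ℂ ζ v : ℂ).re = (inner ℂ v ζ * inner ℂ ζ u : ℂ).re := by
    rw [← inner_conj_symm (𝕜 := ℂ) u ζ, ← inner_conj_symm (𝕜 := ℂ) v ζ]
    simp only [Complex.mul_re, Complex.conj_re, Complex.conj_im]
    ring
  rw [h1, h2]

lemma covDeriv_eq {m n : ℕ} {c : ℝ} {Ψ ξ : Rn m → Cn n} {p v : Rn m} (w : Cn n)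
    (h : ‖Ψ p‖ < 1) : covDeriv c Ψ ξ p v w =
      bergman c (Ψ p) (fderiv ℝ ξ p v + Gam (Ψ p) (fderiv ℝ Ψ p v) (ξ p)) w := by
  unfold covDeriv
  rw [koszul c _ _ _ h, bergman_add_left]

/-- the unit normal for the metric with parameter `c` -/
noncomputable def xi (c : ℝ) (p : Rn 5) : Cn 3 := -(Real.sqrt (-c)) • xi1 p

lemma fderiv_xi (c : ℝ) (p v : Rn 5) : fderiv ℝ (xi c) p v = -(Real.sqrt (-c)) • fderiv ℝ xi1 p v := by
  obtain ⟨L2, d2, e2⟩ := hxi1 p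
  have : HasFDerivAt (xi c) (-(Real.sqrt (-c)) • L2) p := d2.const_smul (-(Real.sqrt (-c)))
  rw [this.fderiv, d2.fderiv]
  rfl

lemma covDeriv_xi (c : ℝ) (p v : Rn 5) (w : Cn 3) : covDeriv c Psi (xi c) p v w =
    -(Real.sqrt (-c)) * bergman c (Psi p) (nab p v) w := by
  rw [covDeriv_eq w (Psi_ball p), fderiv_xi]
  have : -(Real.sqrt (-c)) • fderiv ℝ xi1 p v + Gam (Psi p) (fderiv ℝ Psi p v) (xi c p) =
      ((-(Real.sqrt (-c)) : ℝ) : ℂ) • nab p v := by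
    rw [nab_apply]
    unfold Gam xi
    rw [← Complex.coe_smul, ← Complex.coe_smul, inner_smul_right]
    module
  rw [this, bergman_smul_left]

lemma isPrincipal_of {c : ℝ} (p : Rn 5) {v : Rn 5} (hv : v ≠ 0) {μ : ℝ}
    (h : nab p v = μ • fderiv ℝ Psi p v) :
    IsPrincipal c Psi (xi c) p v (Real.sqrt (-c) * μ) := by
  refine ⟨fun h0 => hv (dPsi_inj p v h0), fun w => ?_⟩
  rw [covDeriv_xi, h, ← Complex.coe_smul, bergman_smul_left]
  ring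

lemma of_isPrincipal {c : ℝ} (hc : c < 0) {p v : Rn 5} {μ : ℝ}
    (h : IsPrincipal c Psi (xi c) p v μ) :
    μ = Real.sqrt (-c) * 2 ∨ μ = Real.sqrt (-c) * 1 ∨ μ = Real.sqrt (-c) * lam p := by
  obtain ⟨h0, h1⟩ := h
  have hs : 0 < Real.sqrt (-c) := Real.sqrt_pos.mpr (by linarith)
  have hv : v ≠ 0 := by
    rintro rfl
    exact h0 (map_zero _)
  have h2 : nab p v = (μ / Real.sqrt (-c)) • fderiv ℝ Psi p v := by
    by_contra hne
    have hne' := sub_ne_zero.mpr hne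
    have h3 := bergman_pos (Psi_ball p) hne'
    have h4 := h1 (nab p v - (μ / Real.sqrt (-c)) • fderiv ℝ Psi p v)
    rw [covDeriv_xi, bergman_scale c, bergman_scale c] at h4
    have h5 : bergman (-1) (Psi p) (nab p v - (μ / Real.sqrt (-c)) • fderiv ℝ Psi p v)
        (nab p v - (μ / Real.sqrt (-c)) • fderiv ℝ Psi p v) =
        bergman (-1) (Psi p) (nab p v) (nab p v - (μ / Real.sqrt (-c)) • fderiv ℝ Psi p v) -
        (μ / Real.sqrt (-c)) * bergman (-1) (Psi p) (fderiv ℝ Psi p v)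
          (nab p v - (μ / Real.sqrt (-c)) • fderiv ℝ Psi p v) := by
      have : nab p v - (μ / Real.sqrt (-c)) • fderiv ℝ Psi p v =
          nab p v + ((-(μ / Real.sqrt (-c)) : ℝ) : ℂ) • fderiv ℝ Psi p v := by
        rw [Complex.coe_smul]; module
      conv_lhs => rw [this]
      rw [bergman_add_left, bergman_smul_left, ← this]
      ring
    have h6 : Real.sqrt (-c) * bergman (-1) (Psi p) (nab p v)
        (nab p v - (μ / Real.sqrt (-c)) • fderiv ℝ Psi p v) =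
        μ * bergman (-1) (Psi p) (fderiv ℝ Psi p v)
          (nab p v - (μ / Real.sqrt (-c)) • fderiv ℝ Psi p v) := by
      have hc' : (-1 / c) ≠ 0 := by
        apply div_ne_zero (by norm_num) hc.ne
      apply mul_left_cancel₀ hc'
      linarith
    have h7 : Real.sqrt (-c) * bergman (-1) (Psi p)
        (nab p v - (μ / Real.sqrt (-c)) • fderiv ℝ Psi p v)
        (nab p v - (μ / Real.sqrt (-c)) • fderiv ℝ Psi p v) = 0 := by
      rw [h5, mul_sub, h6]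
      field_simp
      ring
    have := mul_pos hs h3
    linarith
  rcases eig_unique hv h2 with h | h | h
  · left; rw [← h]; field_simp
  · right; left; rw [← h]; field_simp
  · right; right; rw [← h]; field_simp

lemma lam_lt (p : Rn 5) : lam p < 1 := by
  unfold lam
  have : 0 < 2 / (1 + 3 * p 2 ^ 2 + p 3 ^ 2 + p 4 ^ 2) := by positivity
  linarith

lemma v1_ne : v1 ≠ 0 := by
  intro h
  have := congrArg (fun w : Rn 5 => w 1) h
  simp [v1] at this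

lemma v2_ne : v2 ≠ 0 := by
  intro h
  have := congrArg (fun w : Rn 5 => w 2) h
  simp [v2] at this

lemma v5_ne (p : Rn 5) : v5 p ≠ 0 := by
  intro h
  have := congrArg (fun w : Rn 5 => w 0) h
  simp [v5] at this

lemma principal_set {c : ℝ} (hc : c < 0) (p : Rn 5) :
    {μ : ℝ | ∃ v, IsPrincipal c Psi (xi c) p v μ} =
      {Real.sqrt (-c) * 2, Real.sqrt (-c) * 1, Real.sqrt (-c) * lam p} := by
  ext μ
  constructor
  · rintro ⟨v, hv⟩
    exact of_isPrincipal hc hv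
  · rintro (h | h | h)
    · rw [h]
      exact ⟨v1, isPrincipal_of p v1_ne (by rw [nab_apply, eig1, Complex.coe_smul])⟩
    · rw [h]
      exact ⟨v2, isPrincipal_of p v2_ne (by rw [nab_apply, eig2, Complex.coe_smul])⟩
    · have h : μ = Real.sqrt (-c) * lam p := h
      rw [h]
      exact ⟨v5 p, isPrincipal_of p (v5_ne p) (by rw [nab_apply, eig5, Complex.coe_smul])⟩

lemma three_principal {c : ℝ} (hc : c < 0) (p : Rn 5) :
    {μ : ℝ | ∃ v, IsPrincipal c Psi (xi c) p v μ}.ncard = 3 := by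
  have hs : 0 < Real.sqrt (-c) := Real.sqrt_pos.mpr (by linarith)
  rw [principal_set hc, Set.ncard_eq_three]
  refine ⟨_, _, _, ?_, ?_, ?_, rfl⟩
  · intro h
    have := mul_left_cancel₀ hs.ne' h
    norm_num at this
  · intro h
    have := mul_left_cancel₀ hs.ne' h
    have := lam_lt p
    linarith
  · intro h
    have := mul_left_cancel₀ hs.ne' h
    have := lam_lt p
    linarith

lemma dPsi_v1 (p : Rn 5) : fderiv ℝ Psi p v1 = Complex.I • xi1 p := by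
  obtain ⟨L1, d1, f1⟩ := hPsi p
  have a0 : v1 0 = 0 := rfl
  have a1 : v1 1 = 1 := rfl
  have a2 : v1 2 = 0 := rfl
  have a3 : v1 3 = 0 := rfl
  have a4 : v1 4 = 0 := rfl
  have e0 : dz0 p v1 = Complex.I * Z0 p := by
    apply Complex.ext <;> simp [dz0_re, dz0_im, Z0_re, Z0_im, a0, a1, a2, a3, a4]
    ring
  have e1 : vec (dz1 p v1) (dz2 v1) (dz3 p v1) = Complex.I • ZZ p := by
    ext i
    fin_cases i
    · simp [vec, ZZ]
      apply Complex.ext <;> simp [dz1_re, dz1_im, a0, a1, a2, a3, a4]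
    · simp [vec, ZZ]
      apply Complex.ext <;> simp [dz2_re, dz2_im, a0, a1, a2, a3, a4]
    · simp [vec, ZZ]
      apply Complex.ext <;> simp [dz3_re, dz3_im, Z3_re, Z3_im, a0, a1, a2, a3, a4]
      ring
  rw [d1.fderiv, f1, e0, e1]
  unfold xi1
  module

/-- the structure vector is principal -/
lemma hopf {c : ℝ} (hc : c < 0) (p : Rn 5) :
    ∃ v, fderiv ℝ Psi p v = -(Complex.I • xi c p) ∧
      IsPrincipal c Psi (xi c) p v (Real.sqrt (-c) * 2) := by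
  have hs : 0 < Real.sqrt (-c) := Real.sqrt_pos.mpr (by linarith)
  refine ⟨Real.sqrt (-c) • v1, ?_, ?_⟩
  · rw [map_smul, dPsi_v1]
    unfold xi
    rw [← Complex.coe_smul, ← Complex.coe_smul]
    push_cast
    module
  · apply isPrincipal_of p (smul_ne_zero hs.ne' v1_ne)
    rw [map_smul, map_smul, nab_apply, eig1, Complex.coe_smul, smul_comm]

lemma hf_conj {n : ℕ} (U0 : ℂ) (U : Cn n) (V0 : ℂ) (V : Cn n) :
    conj (hf U0 U V0 V) = hf V0 V U0 U := by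
  unfold hf
  simp only [map_add, map_neg, map_mul, Complex.conj_conj, inner_conj_symm]
  ring

lemma hf_zZ (p : Rn 5) : hf (z0 p) (zz p) (Z0 p) (ZZ p) = 1 := by
  have := hZ p
  unfold hf
  rw [← this]; ring

lemma hf_Zz (p : Rn 5) : hf (Z0 p) (ZZ p) (z0 p) (zz p) = 1 := by
  rw [← hf_conj, hf_zZ, map_one]

lemma unit_normal1 (p : Rn 5) : bergman (-1) (Psi p) (xi1 p) (xi1 p) = 1 := by
  unfold xi1
  rw [bergman_homog (Ψ := Psi p) (z0_ne p) (hneg p) rfl, hZZ0, hf_zZ, hf_Zz]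
  simp

lemma hf_Zdz (p v : Rn 5) : (hf (Z0 p) (ZZ p) (dz0 p v) (vec (dz1 p v) (dz2 v) (dz3 p v))).re =
    0 := by
  unfold hf ZZ
  rw [inner_vec]
  simp [z0_re, z0_im, z1_re, z1_im, z2_re, z2_im, z3_re, z3_im, dz0_re, dz0_im, dz1_re, dz1_im,
      dz2_re, dz2_im, dz3_re, dz3_im, Z0_re, Z0_im, Z3_re, Z3_im, dZ0_re, dZ0_im, dZ3_re, dZ3_im]
  ring

lemma normal1 (p v : Rn 5) : bergman (-1) (Psi p) (xi1 p) (fderiv ℝ Psi p v) = 0 := by
  obtain ⟨L1, d1, f1⟩ := hPsi p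
  rw [d1.fderiv, f1]
  unfold xi1
  rw [bergman_homog (Ψ := Psi p) (z0_ne p) (hneg p) rfl, hf_Zz, one_mul, Complex.add_re, hf_Zdz]
  have : hf (z0 p) (zz p) (dz0 p v) (vec (dz1 p v) (dz2 v) (dz3 p v)) = h1 p v := by
    unfold hf h1
    ring
  rw [this, h1_eq, I_mul_re, add_zero]

lemma bergman_smul_right {n : ℕ} (c : ℝ) (ζ u v : Cn n) (r : ℝ) :
    bergman c ζ u ((r : ℂ) • v) = r * bergman c ζ u v := by
  rw [bergman_comm, bergman_smul_left, bergman_comm]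

lemma unit_normal {c : ℝ} (hc : c < 0) (p : Rn 5) : bergman c (Psi p) (xi c p) (xi c p) = 1 := by
  unfold xi
  have h2 : Real.sqrt (-c) ^ 2 = -c := Real.sq_sqrt (by linarith)
  rw [← Complex.coe_smul, bergman_smul_left, bergman_smul_right, bergman_scale, unit_normal1]
  have h3 : -Real.sqrt (-c) * (-Real.sqrt (-c) * (-1 / c * 1)) = -(Real.sqrt (-c) ^ 2) / c := by
    ring
  rw [h3, h2, neg_neg, div_self hc.ne]

lemma normal {c : ℝ} (p v : Rn 5) : bergman c (Psi p) (xi c p) (fderiv ℝ Psi p v) = 0 := by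
  unfold xi
  rw [← Complex.coe_smul, bergman_smul_left, bergman_scale, normal1]
  ring

/-! ### Smoothness -/

lemma contDiff_X (i : Fin 5) : ContDiff ℝ ∞ (X i) :=
  (Complex.ofRealCLM.comp (EuclideanSpace.proj i : Rn 5 →L[ℝ] ℝ)).contDiff

lemma contDiff_xx : ContDiff ℝ ∞ xx := by
  have := contDiff_X
  unfold xx
  have h1 := contDiff_X 1
  have h2 := contDiff_X 2
  have h3 := contDiff_X 3
  have h4 := contDiff_X 4
  fun_prop

lemma contDiff_z0 : ContDiff ℝ ∞ z0 := by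
  unfold z0
  have h0 := contDiff_X 0
  have h2 := contDiff_X 2
  have hx := contDiff_xx
  fun_prop

lemma contDiff_z1 : ContDiff ℝ ∞ z1 := by
  unfold z1
  have h0 := contDiff_X 0
  have h2 := contDiff_X 2
  have hx := contDiff_xx
  fun_prop

lemma contDiff_z2 : ContDiff ℝ ∞ z2 := by
  unfold z2
  have h3 := contDiff_X 3
  have h4 := contDiff_X 4
  fun_prop

lemma contDiff_z3 : ContDiff ℝ ∞ z3 := by
  unfold z3
  have h0 := contDiff_X 0
  have h2 := contDiff_X 2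
  have hx := contDiff_xx
  fun_prop

lemma contDiff_Z0 : ContDiff ℝ ∞ Z0 := by
  unfold Z0
  have h0 := contDiff_X 0
  fun_prop

lemma contDiff_Z3 : ContDiff ℝ ∞ Z3 := by
  unfold Z3
  have h0 := contDiff_X 0
  fun_prop

lemma contDiff_vec {a b c : Rn 5 → ℂ} (ha : ContDiff ℝ ∞ a) (hb : ContDiff ℝ ∞ b)
    (hc : ContDiff ℝ ∞ c) : ContDiff ℝ ∞ fun p => vec (a p) (b p) (c p) := by
  have e : (fun p => vec (a p) (b p) (c p)) =
      fun p => a p • vec 1 0 0 + b p • vec 0 1 0 + c p • vec 0 0 1 := by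
    funext p; exact vec_eq _ _ _
  rw [e]
  exact ((ha.smul contDiff_const).add (hb.smul contDiff_const)).add (hc.smul contDiff_const)

lemma contDiff_Psi : ContDiff ℝ ∞ Psi := by
  have h1 : ContDiff ℝ ∞ zz := contDiff_vec contDiff_z1 contDiff_z2 contDiff_z3
  have h2 : ContDiff ℝ ∞ fun p => (z0 p)⁻¹ := contDiff_z0.inv z0_ne
  exact h2.smul h1

lemma contDiff_xi (c : ℝ) : ContDiff ℝ ∞ (xi c) := by
  have h1 : ContDiff ℝ ∞ ZZ := contDiff_vec (contDiff_X 0) contDiff_const contDiff_Z3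
  have h2 : ContDiff ℝ ∞ fun p => (z0 p)⁻¹ := contDiff_z0.inv z0_ne
  have h3 : ContDiff ℝ ∞ xi1 := h2.smul (h1.sub (contDiff_Z0.smul contDiff_Psi))
  exact (contDiff_const (c := -(Real.sqrt (-c)))).smul h3

/-! ### Embedding -/

lemma Psi_injective : Function.Injective Psi := by
  intro p q hpq
  have hp : zz p = z0 p • Psi p := by
    unfold Psi
    rw [smul_smul, mul_inv_cancel₀ (z0_ne p), one_smul]
  have hq : zz q = z0 q • Psi q := by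
    unfold Psi
    rw [smul_smul, mul_inv_cancel₀ (z0_ne q), one_smul]
  obtain ⟨κ, hκ⟩ : ∃ κ, κ = z0 q * (z0 p)⁻¹ := ⟨_, rfl⟩
  have g0 : z0 q = κ * z0 p := by
    rw [hκ, mul_assoc, inv_mul_cancel₀ (z0_ne p), mul_one]
  have gz : zz q = κ • zz p := by
    rw [hq, ← hpq, hp, smul_smul, ← g0]
  have g1 : z1 q = κ * z1 p := by
    have := congrArg (fun w : Cn 3 => w 0) gz
    simpa [vec, zz] using this
  have g2 : z2 q = κ * z2 p := by
    have := congrArg (fun w : Cn 3 => w 1) gz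
    simpa [vec, zz] using this
  have g3 : z3 q = κ * z3 p := by
    have := congrArg (fun w : Cn 3 => w 2) gz
    simpa [vec, zz] using this
  have hκ1 : ‖κ‖ ^ 2 = 1 := by
    have h1 := hneg p
    have h2 := hneg q
    rw [gz, g0, norm_smul, norm_mul, mul_pow, mul_pow, h1] at h2
    linarith
  -- pairing with the null curve
  have key : ∀ a b : Rn 5, hf (z0 a) (zz a) (Z0 b) (ZZ b) =
      ((1 + (1 + a 2 ^ 2 + a 3 ^ 2 + a 4 ^ 2) / 4 * (b 0 - a 0) ^ 2 : ℝ) : ℂ) -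
      Complex.I * ((a 2 * (b 0 - a 0) - a 1 / 2 * (b 0 - a 0) ^ 2 : ℝ) : ℂ) := by
    intro a b
    unfold hf zz ZZ
    rw [inner_vec]
    apply Complex.ext
    · rw [Complex.sub_re, I_mul_re, Complex.ofReal_re]
      simp [z0_re, z0_im, z1_re, z1_im, z2_re, z2_im, z3_re, z3_im, Z0_re, Z0_im, Z3_re, Z3_im]
      ring
    · rw [Complex.sub_im, I_mul_im, Complex.ofReal_im]
      simp [z0_re, z0_im, z1_re, z1_im, z2_re, z2_im, z3_re, z3_im, Z0_re, Z0_im, Z3_re, Z3_im]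
      ring
  have h1 : hf (z0 q) (zz q) (Z0 q) (ZZ q) = conj κ * hf (z0 p) (zz p) (Z0 q) (ZZ q) := by
    rw [g0, gz]
    unfold hf
    rw [inner_smul_left, map_mul]
    ring
  rw [hf_zZ, key] at h1
  have h2 : (1 : ℝ) = (1 + (1 + p 2 ^ 2 + p 3 ^ 2 + p 4 ^ 2) / 4 * (q 0 - p 0) ^ 2) ^ 2 +
      (p 2 * (q 0 - p 0) - p 1 / 2 * (q 0 - p 0) ^ 2) ^ 2 := by
    have h3 : ‖(1 : ℂ)‖ ^ 2 = _ := congrArg (fun z => ‖z‖ ^ 2) h1
    rw [norm_mul, RCLike.norm_conj, mul_pow, hκ1, one_mul, norm_one, one_pow,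
      ← Complex.normSq_eq_norm_sq, Complex.normSq_apply, Complex.sub_re, Complex.sub_im,
      I_mul_re, I_mul_im, Complex.ofReal_re, Complex.ofReal_im] at h3
    linarith
  have h3 : q 0 - p 0 = 0 := by
    have h4 : (q 0 - p 0) ^ 2 * ((1 + p 2 ^ 2 + p 3 ^ 2 + p 4 ^ 2) / 2 +
        ((1 + p 2 ^ 2 + p 3 ^ 2 + p 4 ^ 2) / 4) ^ 2 * (q 0 - p 0) ^ 2 +
        (p 2 - p 1 / 2 * (q 0 - p 0)) ^ 2) = 0 := by
      linarith
    have h5 : 0 < (1 + p 2 ^ 2 + p 3 ^ 2 + p 4 ^ 2) / 2 +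
        ((1 + p 2 ^ 2 + p 3 ^ 2 + p 4 ^ 2) / 4) ^ 2 * (q 0 - p 0) ^ 2 +
        (p 2 - p 1 / 2 * (q 0 - p 0)) ^ 2 := by positivity
    rcases mul_eq_zero.mp h4 with h | h
    · exact pow_eq_zero_iff (two_ne_zero) |>.mp h
    · linarith
  have hκ2 : κ = 1 := by
    rw [h3] at h1
    simp at h1
    have := congrArg conj h1
    simpa using this.symm
  rw [hκ2, one_mul] at g0 g1 g2 g3
  have gx : xx q = xx p := by
    have hx : z0 p + z3 p = xx p := by unfold z0 z3; ring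
    have hx' : z0 q + z3 q = xx q := by unfold z0 z3; ring
    rw [← hx, ← hx', g0, g3]
  have a0 : q 0 = p 0 := by linarith
  have a1 : q 1 = p 1 := by rw [← xx_im, ← xx_im, gx]
  have a2 : q 2 = p 2 := by
    have := congrArg Complex.im g1
    rw [z1_im, z1_im, a0, a1] at this
    linarith
  have a3 : q 3 = p 3 := by rw [← z2_re, ← z2_re, g2]
  have a4 : q 4 = p 4 := by rw [← z2_im, ← z2_im, g2]
  ext i
  fin_cases i
  · exact a0.symm
  · exact a1.symm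
  · exact a2.symm
  · exact a3.symm
  · exact a4.symm

lemma norm_z0_sq (p : Rn 5) : ‖z0 p‖ ^ 2 = (1 - ‖Psi p‖ ^ 2)⁻¹ := by
  have h0 : ‖z0 p‖ ≠ 0 := norm_ne_zero_iff.mpr (z0_ne p)
  unfold Psi
  rw [norm_smul, norm_inv, mul_pow, hneg]
  field_simp
  ring

lemma bound (p : Rn 5) {m : ℝ} (hm : ‖z0 p‖ ≤ m) : ‖p‖ ^ 2 ≤ 8 * m + 100 * m ^ 2 := by
  have h1 := Complex.abs_re_le_norm (z0 p)
  have h2 := Complex.abs_im_le_norm (z0 p)
  rw [z0_re] at h1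
  rw [z0_im] at h2
  have hm0 : 0 ≤ m := (norm_nonneg _).trans hm
  have h3 : (1 + p 2 ^ 2 + p 3 ^ 2 + p 4 ^ 2) / 4 * (1 + p 0 ^ 2) + 1 ≤ m := by
    have := (abs_le.mp (h1.trans hm)).1
    linarith
  have h4 := abs_le.mp (h2.trans hm)
  have h5 : p 0 ^ 2 ≤ 4 * m := by nlinarith [sq_nonneg (p 2), sq_nonneg (p 3), sq_nonneg (p 4), sq_nonneg (p 0), mul_nonneg (sq_nonneg (p 2)) (sq_nonneg (p 0)), mul_nonneg (sq_nonneg (p 3)) (sq_nonneg (p 0)), mul_nonneg (sq_nonneg (p 4)) (sq_nonneg (p 0))]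
  have h6 : p 2 ^ 2 + p 3 ^ 2 + p 4 ^ 2 ≤ 4 * m := by nlinarith [sq_nonneg (p 2), sq_nonneg (p 3), sq_nonneg (p 4), sq_nonneg (p 0), mul_nonneg (sq_nonneg (p 2)) (sq_nonneg (p 0)), mul_nonneg (sq_nonneg (p 3)) (sq_nonneg (p 0)), mul_nonneg (sq_nonneg (p 4)) (sq_nonneg (p 0))]
  have h7 : |p 0 * p 2| ≤ 4 * m := by
    rw [abs_le]
    constructor <;> nlinarith [sq_nonneg (p 0 + p 2), sq_nonneg (p 0 - p 2), sq_nonneg (p 3), sq_nonneg (p 4)]
  have h8 : |p 1| ≤ 10 * m := by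
    have h9 := abs_le.mp h7
    have h10 : |p 1 / 2 * (1 + p 0 ^ 2)| ≤ 5 * m := by
      rw [abs_le]; constructor <;> linarith
    rw [abs_mul, abs_div, abs_two, abs_of_pos (by positivity : 0 < 1 + p 0 ^ 2)] at h10
    nlinarith [abs_nonneg (p 1), mul_nonneg (abs_nonneg (p 1)) (sq_nonneg (p 0))]
  have h9 : p 1 ^ 2 ≤ 100 * m ^ 2 := by
    rw [← sq_abs]
    nlinarith [abs_nonneg (p 1)]
  have h10 : ‖p‖ ^ 2 = p 0 ^ 2 + p 1 ^ 2 + p 2 ^ 2 + p 3 ^ 2 + p 4 ^ 2 := by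
    rw [EuclideanSpace.norm_sq_eq, Fin.sum_univ_five]
    simp
  rw [h10]
  linarith

lemma isEmbedding_Psi : Topology.IsEmbedding Psi := by
  refine ⟨⟨?_⟩, Psi_injective⟩
  rw [← isInducing_iff, Topology.isInducing_iff_nhds]
  intro p
  apply le_antisymm
  · exact (contDiff_Psi.continuous.tendsto p).le_comap
  · rw [Filter.le_iff_ultrafilter]
    intro f hf
    have h1 : Filter.Tendsto Psi f (𝓝 (Psi p)) := Filter.tendsto_iff_comap.mpr hf
    have h2 : Filter.Tendsto (fun q => ‖z0 q‖ ^ 2) f (𝓝 (‖z0 p‖ ^ 2)) := by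
      simp_rw [norm_z0_sq]
      refine Filter.Tendsto.inv₀ ?_ ?_
      · exact (h1.norm.pow 2).const_sub 1
      · have := rho_pos (Psi_ball p)
        exact this.ne'
    have h3 : ∀ᶠ q in (f : Filter (Rn 5)), ‖z0 q‖ ^ 2 < ‖z0 p‖ ^ 2 + 1 :=
      h2.eventually_lt_const (by linarith)
    set m := Real.sqrt (‖z0 p‖ ^ 2 + 1)
    have h4 : ∀ᶠ q in (f : Filter (Rn 5)),
        q ∈ Metric.closedBall (0 : Rn 5) (Real.sqrt (8 * m + 100 * m ^ 2)) := by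
      filter_upwards [h3] with q hq
      rw [mem_closedBall_zero_iff]
      apply Real.le_sqrt_of_sq_le
      apply bound
      exact Real.le_sqrt_of_sq_le hq.le
    obtain ⟨q, -, hq⟩ := (isCompact_closedBall (0 : Rn 5) _).ultrafilter_le_nhds f
      (Filter.le_principal_iff.mpr h4)
    have h5 : Filter.Tendsto Psi f (𝓝 (Psi q)) := (contDiff_Psi.continuous.tendsto q).mono_left hq
    have h6 := tendsto_nhds_unique h1 h5
    rw [Psi_injective h6]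
    exact hq

lemma isHypersurface {c : ℝ} (hc : c < 0) : IsHypersurface c univ Psi (xi c) where
  dim := rfl
  isOpen := isOpen_univ
  connected := isConnected_univ
  smooth := contDiff_Psi.contDiffOn
  smooth_normal := (contDiff_xi c).contDiffOn
  mem_ball p _ := Psi_ball p
  immersion p _ := Psi_immersion p
  embedding := isEmbedding_Psi.comp Topology.IsEmbedding.subtypeVal
  unit_normal p _ := unit_normal hc p
  normal p _ v := normal p v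

/-! ### The example is in no member of Montiel's list -/

noncomputable def zvec (p : Rn 5) : Fin 4 → ℂ := ![z0 p, z1 p, z2 p, z3 p]
noncomputable def Zvec (p : Rn 5) : Fin 4 → ℂ := ![Z0 p, X 0 p, 0, Z3 p]

lemma lift_Psi (p : Rn 5) : lift (Psi p) = (z0 p)⁻¹ • zvec p := by
  have h0 := z0_ne p
  ext i
  fin_cases i <;> simp [lift, Psi, zvec, zz, vec, h0] <;> rfl

lemma one_sub_Psi (p : Rn 5) : (1 - ‖Psi p‖ ^ 2) * ‖z0 p‖ ^ 2 = 1 := by
  rw [norm_z0_sq]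
  have := rho_pos (Psi_ball p)
  field_simp

noncomputable def shift (p : Rn 5) (a : ℝ) : Rn 5 := !₂[p 0, p 1 + a, p 2, p 3, p 4]

lemma zvec_shift (p : Rn 5) (a : ℝ) :
    zvec (shift p a) = zvec p + ((a : ℂ) * Complex.I) • Zvec p := by
  have a0 : shift p a 0 = p 0 := rfl
  have a1 : shift p a 1 = p 1 + a := rfl
  have a2 : shift p a 2 = p 2 := rfl
  have a3 : shift p a 3 = p 3 := rfl
  have a4 : shift p a 4 = p 4 := rfl
  ext i
  fin_cases i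
  · apply Complex.ext <;> simp [zvec, Zvec, z0_re, z0_im, Z0_re, Z0_im, a0, a1, a2, a3, a4] <;> ring
  · apply Complex.ext <;> simp [zvec, Zvec, z1_re, z1_im, a0, a1, a2, a3, a4] <;> ring
  · apply Complex.ext <;> simp [zvec, Zvec, z2_re, z2_im, a0, a1, a2, a3, a4]
  · apply Complex.ext <;> simp [zvec, Zvec, z3_re, z3_im, Z3_re, Z3_im, a0, a1, a2, a3, a4] <;> ring

/-- a quadratic polynomial of constant modulus on the real line is constant -/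
lemma const_modulus {P Q R : ℂ} {t : ℝ}
    (h : ∀ a : ℝ, ‖P + (a : ℂ) * Q + (a : ℂ) ^ 2 * R‖ ^ 2 = t) : Q = 0 ∧ R = 0 := by
  have e : ∀ a : ℝ, (P.re + a * Q.re + a ^ 2 * R.re) ^ 2 +
      (P.im + a * Q.im + a ^ 2 * R.im) ^ 2 = t := by
    intro a
    rw [← h a, ← Complex.normSq_eq_norm_sq, Complex.normSq_apply]
    simp only [Complex.add_re, Complex.add_im, Complex.mul_re, Complex.mul_im, Complex.ofReal_re,
      Complex.ofReal_im, ← Complex.ofReal_pow]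
    ring
  have e0 := e 0
  have e1 := e 1
  have e2 := e (-1)
  have e3 := e 2
  have e4 := e (-2)
  have r : R.re ^ 2 + R.im ^ 2 = 0 := by linarith
  have r1 : R.re = 0 := by nlinarith [sq_nonneg R.re, sq_nonneg R.im]
  have r2 : R.im = 0 := by nlinarith [sq_nonneg R.re, sq_nonneg R.im]
  rw [r1, r2] at e1 e2
  have q : Q.re ^ 2 + Q.im ^ 2 = 0 := by linarith
  have q1 : Q.re = 0 := by nlinarith [sq_nonneg Q.re, sq_nonneg Q.im]
  have q2 : Q.im = 0 := by nlinarith [sq_nonneg Q.re, sq_nonneg Q.im]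
  exact ⟨Complex.ext q1 q2, Complex.ext r1 r2⟩

/-- sums of squared moduli of affine functions -/
lemma const_modulus_sum {ι : Type*} (s : Finset ι) {P Q : ι → ℂ} {t : ℝ}
    (h : ∀ a : ℝ, ∑ i ∈ s, ‖P i + (a : ℂ) * Q i‖ ^ 2 = t) : ∀ i ∈ s, Q i = 0 := by
  have e : ∀ i, ‖P i + ((1 : ℝ) : ℂ) * Q i‖ ^ 2 + ‖P i + ((-1 : ℝ) : ℂ) * Q i‖ ^ 2 -
      2 * ‖P i + ((0 : ℝ) : ℂ) * Q i‖ ^ 2 = 2 * ‖Q i‖ ^ 2 := by
    intro i
    simp only [← Complex.normSq_eq_norm_sq, Complex.normSq_apply]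
    simp
    ring
  have h1 : ∑ i ∈ s, 2 * ‖Q i‖ ^ 2 = 0 := by
    simp_rw [← e]
    rw [Finset.sum_sub_distrib, Finset.sum_add_distrib, ← Finset.mul_sum, h, h, h]
    ring
  intro i hi
  have h2 := (Finset.sum_eq_zero_iff_of_nonneg (fun i _ => by positivity)).mp h1 i hi
  have h3 : ‖Q i‖ ^ 2 = 0 := by linarith
  simpa using h3

noncomputable def pt (s α β u v : ℝ) : Rn 5 := !₂[s, α, β, u, v]

lemma zvec_pt (s α β u v : ℝ) : zvec (pt s α β u v) =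
    ![((-(1 + β ^ 2 + u ^ 2 + v ^ 2) / 4 * (1 + s ^ 2) - 1 : ℝ) : ℂ) +
        ((α / 2 * (1 + s ^ 2) + s * β : ℝ) : ℂ) * Complex.I,
      ((-(1 + β ^ 2 + u ^ 2 + v ^ 2) / 2 * s : ℝ) : ℂ) + ((β + s * α : ℝ) : ℂ) * Complex.I,
      (u : ℂ) + (v : ℂ) * Complex.I,
      ((-(1 + β ^ 2 + u ^ 2 + v ^ 2) / 4 * (1 - s ^ 2) + 1 : ℝ) : ℂ) +
        ((α / 2 * (1 - s ^ 2) - s * β : ℝ) : ℂ) * Complex.I] := by
  have a0 : pt s α β u v 0 = s := rfl
  have a1 : pt s α β u v 1 = α := rfl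
  have a2 : pt s α β u v 2 = β := rfl
  have a3 : pt s α β u v 3 = u := rfl
  have a4 : pt s α β u v 4 = v := rfl
  have hre : ∀ x y : ℝ, ((x : ℂ) + (y : ℂ) * Complex.I).re = x := by intro x y; simp
  have him : ∀ x y : ℝ, ((x : ℂ) + (y : ℂ) * Complex.I).im = y := by intro x y; simp
  ext i
  fin_cases i
  · apply Complex.ext
    · exact (z0_re _).trans (by rw [a0, a2, a3, a4]; exact (hre _ _).symm)
    · exact (z0_im _).trans (by rw [a0, a1, a2]; exact (him _ _).symm)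
  · apply Complex.ext
    · exact (z1_re _).trans (by rw [a0, a2, a3, a4]; exact (hre _ _).symm)
    · exact (z1_im _).trans (by rw [a0, a1, a2]; exact (him _ _).symm)
  · apply Complex.ext
    · exact (z2_re _).trans (by rw [a3]; exact (hre _ _).symm)
    · exact (z2_im _).trans (by rw [a4]; exact (him _ _).symm)
  · apply Complex.ext
    · exact (z3_re _).trans (by rw [a0, a2, a3, a4]; exact (hre _ _).symm)
    · exact (z3_im _).trans (by rw [a0, a1, a2]; exact (him _ _).symm)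

lemma Zvec_pt (s α β u v : ℝ) : Zvec (pt s α β u v) =
    ![(1 / 2) * (1 + (s : ℂ) * s), (s : ℂ), 0, (1 / 2) * (1 - (s : ℂ) * s)] := rfl

lemma typeA {ι : Type*} (s : Finset ι) (L : ι → ((Fin 4 → ℂ) →ₗ[ℂ] ℂ)) {t : ℝ} (ht : 0 < t)
    (h : ∀ p, ∑ i ∈ s, ‖L i (zvec p)‖ ^ 2 = t) : False := by
  have h1 : ∀ p, ∀ i ∈ s, L i (Zvec p) = 0 := by
    intro p i hi
    have := const_modulus_sum s (P := fun i => L i (zvec p))
      (Q := fun i => Complex.I * L i (Zvec p)) (t := t) (fun a => by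
        rw [← h (shift p a)]
        refine Finset.sum_congr rfl fun j _ => ?_
        rw [zvec_shift, map_add, map_smul, smul_eq_mul, mul_assoc]) i hi
    exact (mul_eq_zero.mp this).resolve_left Complex.I_ne_zero
  have h2 : ∀ i ∈ s, L i (zvec (pt 0 0 0 0 0)) = 0 := by
    intro i hi
    have e : zvec (pt 0 0 0 0 0) = (3 / 2 : ℂ) • Zvec (pt 0 0 0 0 0) +
        (-1 : ℂ) • Zvec (pt 1 0 0 0 0) + (-1 : ℂ) • Zvec (pt (-1) 0 0 0 0) := by
      rw [zvec_pt, Zvec_pt, Zvec_pt, Zvec_pt]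
      ext j
      fin_cases j <;> simp <;> norm_num
    rw [e, map_add, map_add, map_smul, map_smul, map_smul, h1 _ i hi, h1 _ i hi, h1 _ i hi]
    simp
  have h3 := h (pt 0 0 0 0 0)
  rw [Finset.sum_eq_zero] at h3
  · linarith
  · intro i hi
    rw [h2 i hi]; simp

lemma typeB (g : (Fin 4 → ℂ) ≃ₗ[ℂ] (Fin 4 → ℂ)) {t : ℝ}
    (h : ∀ p, ‖(g (zvec p) 0) ^ 2 - ∑ i : Fin 3, (g (zvec p) i.succ) ^ 2‖ ^ 2 = t) : False := by
  let b : (Fin 4 → ℂ) → (Fin 4 → ℂ) → ℂ := fun u w =>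
    g u 0 * g w 0 - ∑ i : Fin 3, g u i.succ * g w i.succ
  have h1 : ∀ p, b (zvec p) (Zvec p) = 0 := by
    intro p
    have := (const_modulus (P := (g (zvec p) 0) ^ 2 - ∑ i : Fin 3, (g (zvec p) i.succ) ^ 2)
      (Q := 2 * Complex.I * b (zvec p) (Zvec p)) (R := -b (Zvec p) (Zvec p)) (t := t) (fun a => by
        rw [← h (shift p a)]
        congr 2
        rw [zvec_shift, map_add, map_smul]
        simp only [b, Fin.sum_univ_three, Pi.add_apply, Pi.smul_apply, smul_eq_mul]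
        ring_nf
        simp only [Complex.I_sq]
        ring)).1
    have h2 : (2 * Complex.I : ℂ) ≠ 0 := by simp
    exact (mul_eq_zero.mp this).resolve_left h2
  have hadd : ∀ u u' w, b (u + u') w = b u w + b u' w := by
    intro u u' w
    simp only [b, map_add, Pi.add_apply, Fin.sum_univ_three]
    ring
  have hsmul : ∀ (c : ℂ) u w, b (c • u) w = c * b u w := by
    intro c u w
    simp only [b, map_smul, Pi.smul_apply, Fin.sum_univ_three, smul_eq_mul]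
    ring
  set Ev : Fin 4 → ℂ := ![1 / 2, 0, 0, 1 / 2] with hE
  have hZ : ∀ α β u v, Zvec (pt 0 α β u v) = Ev := by
    intro α β u v
    rw [Zvec_pt]
    simp [hE]
  have k0 : b (zvec (pt 0 0 0 0 0)) Ev = 0 := by rw [← hZ 0 0 0 0]; exact h1 _
  have k1 : b (zvec (pt 0 1 0 0 0)) Ev = 0 := by rw [← hZ 1 0 0 0]; exact h1 _
  have k2 : b (zvec (pt 0 0 1 0 0)) Ev = 0 := by rw [← hZ 0 1 0 0]; exact h1 _
  have k3 : b (zvec (pt 0 0 0 1 0)) Ev = 0 := by rw [← hZ 0 0 1 0]; exact h1 _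
  set E0 : Fin 4 → ℂ := ![1, 0, 0, 0] with hE0
  set E1 : Fin 4 → ℂ := ![0, 1, 0, 0] with hE1
  set E2 : Fin 4 → ℂ := ![0, 0, 1, 0] with hE2
  set E3 : Fin 4 → ℂ := ![0, 0, 0, 1] with hE3
  have d0 : zvec (pt 0 0 0 0 0) = (-5 / 4 : ℂ) • E0 + (3 / 4 : ℂ) • E3 := by
    rw [zvec_pt]
    ext j
    fin_cases j <;> simp [hE0, hE3] <;> norm_num
  have d1 : zvec (pt 0 1 0 0 0) = (-5 / 4 + Complex.I / 2 : ℂ) • E0 +
      (3 / 4 + Complex.I / 2 : ℂ) • E3 := by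
    rw [zvec_pt]
    ext j
    fin_cases j <;> simp [hE0, hE3] <;> ring
  have d2 : zvec (pt 0 0 1 0 0) = (-3 / 2 : ℂ) • E0 + Complex.I • E1 + (1 / 2 : ℂ) • E3 := by
    rw [zvec_pt]
    ext j
    fin_cases j <;> simp [hE0, hE1, hE3] <;> norm_num
  have d3 : zvec (pt 0 0 0 1 0) = (-3 / 2 : ℂ) • E0 + (1 : ℂ) • E2 + (1 / 2 : ℂ) • E3 := by
    rw [zvec_pt]
    ext j
    fin_cases j <;> simp [hE0, hE2, hE3] <;> norm_num
  rw [d0, hadd, hsmul, hsmul] at k0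
  rw [d1, hadd, hsmul, hsmul] at k1
  rw [d2, hadd, hadd, hsmul, hsmul, hsmul] at k2
  rw [d3, hadd, hadd, hsmul, hsmul, hsmul] at k3
  have m1 : b E0 Ev + b E3 Ev = 0 := by
    have : (Complex.I / 2) * (b E0 Ev + b E3 Ev) = 0 := by linear_combination k1 - k0
    exact (mul_eq_zero.mp this).resolve_left (by simp)
  have n0 : b E0 Ev = 0 := by linear_combination (-1 / 2) * k0 + (3 / 8) * m1
  have n3 : b E3 Ev = 0 := by linear_combination m1 - n0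
  have n1 : b E1 Ev = 0 := by
    have : Complex.I * b E1 Ev = 0 := by linear_combination k2 + (3 / 2) * n0 - (1 / 2) * n3
    exact (mul_eq_zero.mp this).resolve_left Complex.I_ne_zero
  have n2 : b E2 Ev = 0 := by linear_combination k3 + (3 / 2) * n0 - (1 / 2) * n3
  have hall : ∀ u, b u Ev = 0 := by
    intro u
    have : u = u 0 • E0 + u 1 • E1 + u 2 • E2 + u 3 • E3 := by
      ext j
      fin_cases j <;> simp [hE0, hE1, hE2, hE3]
    rw [this, hadd, hadd, hadd, hsmul, hsmul, hsmul, hsmul, n0, n1, n2, n3]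
    ring
  have hg : g Ev = 0 := by
    ext j
    have := hall (g.symm (Pi.single j 1))
    simp only [b, LinearEquiv.apply_symm_apply, Fin.sum_univ_three] at this
    fin_cases j
    · simpa using this
    · simpa [Fin.sum_univ_succ, Pi.single_apply] using this
    · simpa [Fin.sum_univ_succ, Pi.single_apply] using this
    · simpa [Fin.sum_univ_succ, Pi.single_apply] using this
  have hE' : Ev = 0 := by
    apply g.injective
    rw [hg, map_zero]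
  have := congrFun hE' 0
  simp [hE] at this


lemma g_lift (g : (Fin 4 → ℂ) ≃ₗ[ℂ] (Fin 4 → ℂ)) (p : Rn 5) (i : Fin 4) :
    g (zvec p) i = z0 p * g (lift (Psi p)) i := by
  rw [lift_Psi, map_smul, Pi.smul_apply, smul_eq_mul, ← mul_assoc, mul_inv_cancel₀ (z0_ne p),
    one_mul]

lemma not_montiel {S : Set (Cn 3)} (hS : IsMontiel S) : ¬ Psi '' univ ⊆ S := by
  intro hsub
  obtain ⟨g, -, h | h | h⟩ := hS
  · obtain ⟨t, ht, rfl⟩ := h
    refine typeA (Finset.univ : Finset Unit) (fun _ => ((LinearMap.proj 0 : (Fin 4 → ℂ) →ₗ[ℂ] ℂ) -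
      LinearMap.proj 3).comp g.toLinearMap) ht fun p => ?_
    have hp : ‖g (lift (Psi p)) 0 - g (lift (Psi p)) 3‖ ^ 2 = t * (1 - ‖Psi p‖ ^ 2) :=
      (hsub ⟨p, mem_univ _, rfl⟩).2
    rw [Finset.univ_unique, Finset.sum_singleton]
    change ‖g (zvec p) 0 - g (zvec p) 3‖ ^ 2 = t
    rw [g_lift, g_lift, ← mul_sub, norm_mul, mul_pow, hp]
    linear_combination t * one_sub_Psi p
  · obtain ⟨k, hk, t, ht, rfl⟩ := h
    refine typeA (Finset.univ.filter fun i : Fin 4 => k < i.val) (fun i =>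
      (LinearMap.proj i : (Fin 4 → ℂ) →ₗ[ℂ] ℂ).comp g.toLinearMap) ht fun p => ?_
    have hp : ∑ i : Fin 4 with k < i.val, ‖g (lift (Psi p)) i‖ ^ 2 = t * (1 - ‖Psi p‖ ^ 2) :=
      (hsub ⟨p, mem_univ _, rfl⟩).2
    have e : ∀ i : Fin 4, ‖g (zvec p) i‖ ^ 2 = ‖z0 p‖ ^ 2 * ‖g (lift (Psi p)) i‖ ^ 2 := by
      intro i
      rw [g_lift, norm_mul, mul_pow]
    have e2 : ∑ i : Fin 4 with k < i.val, ‖g (zvec p) i‖ ^ 2 =
        ‖z0 p‖ ^ 2 * ∑ i : Fin 4 with k < i.val, ‖g (lift (Psi p)) i‖ ^ 2 := by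
      rw [Finset.mul_sum]
      exact Finset.sum_congr rfl fun i _ => e i
    refine e2.trans ?_
    rw [hp]
    linear_combination t * one_sub_Psi p
  · obtain ⟨t, ht, rfl⟩ := h
    refine typeB g (t := t ^ 2) fun p => ?_
    have hp : ‖(g (lift (Psi p)) 0) ^ 2 - ∑ i : Fin 3, (g (lift (Psi p)) i.succ) ^ 2‖ =
        t * (1 - ‖Psi p‖ ^ 2) := (hsub ⟨p, mem_univ _, rfl⟩).2
    have e : (g (zvec p) 0) ^ 2 - ∑ i : Fin 3, (g (zvec p) i.succ) ^ 2 =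
        z0 p ^ 2 * ((g (lift (Psi p)) 0) ^ 2 - ∑ i : Fin 3, (g (lift (Psi p)) i.succ) ^ 2) := by
      rw [g_lift, mul_sub, Finset.mul_sum, mul_pow]
      congr 1
      refine Finset.sum_congr rfl fun i _ => ?_
      rw [g_lift, mul_pow]
    rw [e, norm_mul, norm_pow, hp]
    have := one_sub_Psi p
    congr 1
    linear_combination t * this

/-- **Disproof of Q1.** For every `c < 0` there is a connected smooth embedded Hopf hypersurface
`M = Ψ(ℝ⁵)` in `ℂH³` (of holomorphic sectional curvature `4c`) with `a² + 4c = 0` and with exactly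
three distinct principal curvatures at each point, which is not contained in any member of Montiel's
list. -/
theorem result : ∀ c : ℝ, c < 0 → ∃ Ψ ξ : Rn 5 → Cn 3,
    IsHypersurface c univ Ψ ξ ∧
    (∃ a : ℝ, a ^ 2 + 4 * c = 0 ∧ IsHopf c univ Ψ ξ a) ∧
    (∀ p, (principalCurvatures c Ψ ξ p).ncard = 3) ∧
    ∀ S : Set (Cn 3), IsMontiel S → ¬ Ψ '' univ ⊆ S := by
  intro c hc
  refine ⟨Psi, xi c, isHypersurface hc, ⟨Real.sqrt (-c) * 2, ?_, fun p _ => hopf hc p⟩,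
    fun p => three_principal hc p, fun S hS => not_montiel hS⟩
  rw [mul_pow, Real.sq_sqrt (by linarith)]
  ring

end Pool.Agent.Results.MP_bb4e29_gt.HopfExample
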